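import Mathlib

/-! Two statements of real analysis used in the `L¹` ergodic theorem under spectral gap. -/

set_option autoImplicit false

open MeasureTheory Filter Topology

namespace Pool.Agent.H800Z.Erg

/-- Decay at `0` of bounded solutions of `r'' = 4 r' - ℓ r / τ²`, uniformly in `ℓ`. -/
def S_ode : Prop := ∀ (ρ C₀ : ℝ), ρ < 1 → ∃ C c : ℝ, 0 < c ∧ ∀ (ℓ : ℝ) (r r₁ : ℝ → ℝ),
  (∀ τ, 0 < τ → HasDerivAt r (r₁ τ) τ) →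
  (∀ τ, 0 < τ → HasDerivAt r₁ (4 * r₁ τ - ℓ * r τ / τ ^ 2) τ) →
  (∀ τ, 0 < τ → |r τ| ≤ 1) → Tendsto r atTop (𝓝 1) → r 1 ≤ ρ → |r₁ 1| ≤ C₀ → |ℓ * r 1| ≤ C₀ →
  ∀ τ, 0 < τ → τ ≤ 1 → |r τ| ≤ C * τ ^ c

/-- Karamata's Tauberian theorem with index one. -/
def S_kara : Prop := ∀ (Ω : Type) [MeasurableSpace Ω] (ν : Measure Ω) (N φ : Ω → ℝ) (L : ℝ),
  Measurable N → (∀ ω, 0 ≤ N ω) → (∀ ω, 0 ≤ φ ω) →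
  (∀ τ, 0 < τ → Integrable (fun ω => Real.exp (-(τ * N ω)) * φ ω) ν) →
  Tendsto (fun τ => τ * ∫ ω, Real.exp (-(τ * N ω)) * φ ω ∂ν) (𝓝[>] 0) (𝓝 L) →
  Tendsto (fun R => R⁻¹ * ∫ ω in {ω | N ω < R}, φ ω ∂ν) atTop (𝓝 L)

end Pool.Agent.H800Z.Erg
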