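import Mathlib

/-! A character which attains the norm of a given member of a commuting self-adjoint family. -/

set_option autoImplicit false

namespace Pool.Agent.H800Z.Erg

lemma gelfand_comm {B : Type*} [CommCStarAlgebra B] [Nontrivial B] {a : B} (ha : IsSelfAdjoint a) :
    ∃ χ : B →L[ℂ] ℂ, (∀ b, ‖χ b‖ ≤ ‖b‖) ∧ (∀ b c, χ (b * c) = χ b * χ c) ∧
      (∀ b, IsSelfAdjoint b → (χ b).im = 0) ∧ ‖χ a‖ = ‖a‖ := by
  obtain ⟨z, hz, hz'⟩ := spectrum.exists_nnnorm_eq_spectralRadius a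
  rw [ha.spectralRadius_eq_nnnorm] at hz'
  obtain ⟨f, hf⟩ := WeakDual.CharacterSpace.mem_spectrum_iff_exists.1 hz
  refine ⟨WeakDual.CharacterSpace.toCLM f, fun b => AlgHom.norm_apply_le_self f b,
    fun b c => map_mul f b c, fun b hb => hb.im_eq_zero_of_mem_spectrum
      (WeakDual.CharacterSpace.mem_spectrum_iff_exists.2 ⟨f, rfl⟩), ?_⟩
  change ‖f a‖ = _
  rw [hf]
  exact congrArg NNReal.toReal (ENNReal.coe_injective hz')

lemma gelfand {A : Type*} [CStarAlgebra A] (S : Set A) (hsa : ∀ a ∈ S, IsSelfAdjoint a)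
    (hc : ∀ a ∈ S, ∀ b ∈ S, a * b = b * a) {a : A} (ha : a ∈ S) :
    ∃ φ : A →L[ℝ] ℝ, (∀ b, |φ b| ≤ ‖b‖) ∧ (∀ b ∈ S, ∀ c ∈ S, φ (b * c) = φ b * φ c) ∧
      |φ a| = ‖a‖ := by
  rcases subsingleton_or_nontrivial A with hA | hA
  · exact ⟨0, by simp, by simp, by simp [Subsingleton.elim a 0]⟩
  let B : StarSubalgebra ℂ A :=
    StarSubalgebra.centralizer ℂ (StarSubalgebra.centralizer ℂ S : Set A)
  have hSB : ∀ b ∈ S, b ∈ B := by
    intro b hb
    rw [StarSubalgebra.mem_centralizer_iff]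
    intro g hg
    have h1 := ((StarSubalgebra.mem_centralizer_iff ℂ).1 hg b hb).1
    have h2 := ((StarSubalgebra.mem_centralizer_iff ℂ).1 (star_mem hg) b hb).1
    exact ⟨h1.symm, h2.symm⟩
  have hB' : ∀ b ∈ B, b ∈ StarSubalgebra.centralizer ℂ S := by
    intro b hb
    rw [StarSubalgebra.mem_centralizer_iff]
    intro g hg
    refine (StarSubalgebra.mem_centralizer_iff ℂ).1 hb g ?_
    rw [SetLike.mem_coe, StarSubalgebra.mem_centralizer_iff]
    intro x hx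
    rw [(hsa x hx).star_eq]
    exact ⟨hc x hx g hg, hc x hx g hg⟩
  have hcl : IsClosed (B : Set A) := by
    rw [StarSubalgebra.coe_centralizer]
    exact Set.isClosed_centralizer _
  let _ : CommCStarAlgebra B :=
    { StarSubalgebra.cstarAlgebra B with
      mul_comm := fun x y => Subtype.ext
        ((StarSubalgebra.mem_centralizer_iff ℂ).1 y.2 x (hB' x x.2)).1 }
  have hsB : ∀ b (hb : b ∈ S), IsSelfAdjoint (⟨b, hSB b hb⟩ : B) := fun b hb =>
    Subtype.ext (hsa b hb).star_eq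
  obtain ⟨χ, h1, h2, h3, h4⟩ := gelfand_comm (hsB a ha)
  let p : Subspace ℂ A := B.toSubalgebra.toSubmodule
  obtain ⟨ψ, g1, g2⟩ := exists_extension_norm_eq p χ
  have g3 : ‖ψ‖ ≤ 1 := by
    rw [g2]
    exact ContinuousLinearMap.opNorm_le_bound _ zero_le_one fun b => by
      rw [one_mul]; exact h1 b
  have g4 : ∀ b (hb : b ∈ B), ψ b = χ ⟨b, hb⟩ := fun b hb => g1 ⟨b, hb⟩
  refine ⟨Complex.reCLM.comp (ψ.restrictScalars ℝ), fun b => ?_, fun b hb c hc' => ?_, ?_⟩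
  · refine (Complex.abs_re_le_norm _).trans ((ψ.le_of_opNorm_le g3 b).trans (by rw [one_mul]))
  · change (ψ (b * c)).re = (ψ b).re * (ψ c).re
    rw [g4 _ (mul_mem (hSB b hb) (hSB c hc')), g4 _ (hSB b hb), g4 _ (hSB c hc')]
    have := h2 ⟨b, hSB b hb⟩ ⟨c, hSB c hc'⟩
    change χ ⟨b * c, _⟩ = _ at this
    rw [this, Complex.mul_re, h3 _ (hsB b hb), zero_mul, sub_zero]
  · change |(ψ a).re| = _
    rw [g4 _ (hSB a ha), Complex.abs_re_eq_norm.2 (h3 _ (hsB a ha)), h4]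
    rfl

end Pool.Agent.H800Z.Erg
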