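import Pool.Agent.H800Z.Erg.Op
import Pool.Agent.H800Z.Erg.Gel
import Pool.Agent.H586Z.Ode

/-! Power decay of the Abel averages in a unitary representation with a spectral gap. -/

set_option autoImplicit false
set_option linter.unusedSectionVars false

open MeasureTheory Filter Topology
open scoped InnerProductSpace

namespace Pool.Agent.H800Z.Erg

section

variable [MeasurableSpace G] [BorelSpace G] {m : Measure G} [m.IsHaarMeasure]
  {H : Type} [NormedAddCommGroup H] [InnerProductSpace ℂ H] [CompleteSpace H]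
  {U : G →* (H →L[ℂ] H)}

lemma Fn.abs_ker_le {Λ : (G → ℝ) → ℝ} (hΛ : Fn m Λ) (k : ℕ) {τ : ℝ} (hτ : 0 < τ) :
    |Λ (ker k τ)| ≤ ∫ g, ker k τ g ∂m := by
  simpa only [abs_of_pos (ker_pos k τ _)] using hΛ.bound _ (integrable_ker m k hτ)

lemma rr_eq {α : ℝ} (hα : Vol m α) (Λ : (G → ℝ) → ℝ) {τ : ℝ} (hτ : 0 < τ) :
    rr Λ α τ = Λ (ker 0 τ) / V m τ := by
  have := hα.1
  rw [rr, hα.2 τ hτ, Real.exp_neg]
  field_simp

lemma tendsto_rr (hU : Rep U) {α : ℝ} (hα : Vol m α) (φ : (H →L[ℂ] H) →L[ℝ] ℝ)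
    (hφ : ∀ b, |φ b| ≤ ‖b‖) {σ : ℝ} (hσ : 0 < σ)
    (hmul : ∀ τ, 0 < τ → φ (TT m U (ker 0 τ) * TT m U (ker 0 σ)) =
      φ (TT m U (ker 0 τ)) * φ (TT m U (ker 0 σ)))
    (h0 : φ (TT m U (ker 0 σ)) ≠ 0) :
    Tendsto (rr (fun ψ => φ (TT m U ψ)) α) atTop (𝓝 1) := by
  set F := φ (TT m U (ker 0 σ)) with hF
  have hFp : 0 < |F| := abs_pos.2 h0
  have α0 := hα.1
  rw [Metric.tendsto_atTop]
  intro ε hε
  have hc : ContinuousAt (V m) σ := ((fn_integral (m := m)).hasDerivAt 0 hσ).continuousAt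
  have t1 : Tendsto (fun s : ℝ => V m (σ / s) - V m (σ * s)) (𝓝[>] 1) (𝓝 0) := by
    have a1 : Tendsto (fun s : ℝ => σ / s) (𝓝 1) (𝓝 σ) := by
      have := (tendsto_const_nhds (x := σ)).div (tendsto_id (x := 𝓝 (1 : ℝ))) one_ne_zero
      rw [div_one] at this
      exact this
    have a2 : Tendsto (fun s : ℝ => σ * s) (𝓝 1) (𝓝 σ) := by
      simpa using (tendsto_const_nhds (x := σ)).mul (tendsto_id (x := 𝓝 (1 : ℝ)))
    have := (hc.tendsto.comp a1).sub (hc.tendsto.comp a2)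
    rw [sub_self] at this
    exact this.mono_left nhdsWithin_le_nhds
  obtain ⟨s, hs1, hs2⟩ := ((t1.eventually (gt_mem_nhds (show 0 < ε / 2 * |F| by positivity))).and
    self_mem_nhdsWithin).exists
  have hs2 : 1 < s := hs2
  have hδ : 0 < s + s⁻¹ - 2 := by
    have : s + s⁻¹ - 2 = (s - 1) ^ 2 / s := by field_simp; ring
    rw [this]
    exact div_pos (pow_pos (by linarith) 2) (by linarith)
  have t2 := (tendsto_rpow_mul_exp_neg_mul_atTop_nhds_zero 1 _ hδ).const_mul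
    (2 * V m σ * V m 1 * Real.exp (s + s⁻¹) / α)
  simp only [mul_zero, Real.rpow_one] at t2
  obtain ⟨T, hT⟩ := eventually_atTop.1
    ((t2.eventually (gt_mem_nhds (show 0 < ε / 2 * |F| by positivity))).and
      (eventually_ge_atTop 1))
  refine ⟨T, fun τ hτ => ?_⟩
  obtain ⟨b1, b2⟩ := hT τ hτ
  have τ0 : 0 < τ := by linarith
  have p1 := V_pos (m := m) τ0
  have h1 := (hφ _).trans (hU.approx (m := m) b2 hσ hs2.le)
  rw [map_sub, map_smul, hmul τ τ0, ← hF, smul_eq_mul, ← sub_mul, abs_mul] at h1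
  have e : 2 * V m σ * (Real.exp (-((τ - 1) * (s + s⁻¹))) * V m 1) = V m τ *
      (2 * V m σ * V m 1 * Real.exp (s + s⁻¹) / α * (τ * Real.exp (-(s + s⁻¹ - 2) * τ))) := by
    rw [hα.2 τ τ0, show -((τ - 1) * (s + s⁻¹)) =
      -(2 * τ) + ((s + s⁻¹) + -(s + s⁻¹ - 2) * τ) by ring, Real.exp_add, Real.exp_add]
    field_simp
  rw [e] at h1
  rw [Real.dist_eq, rr_eq hα _ τ0, div_sub_one p1.ne', abs_div, abs_of_pos p1, div_lt_iff₀ p1]
  have h2 := mul_lt_mul_of_pos_left hs1 p1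
  have h3 := mul_lt_mul_of_pos_left b1 p1
  refine lt_of_mul_lt_mul_right ?_ hFp.le
  nlinarith

end

theorem thm_decay : S_decay := by
  intro _ _ m _ H _ _ _ U h1 h2 h3
  have hU : Rep U := ⟨h1, h2⟩
  obtain ⟨α, hα⟩ := exists_vol (m := m)
  obtain ⟨ρ, hρ, hgap⟩ := hU.gap (m := m) h3
  have α0 := hα.1
  set I : ℕ → ℝ := fun k => ∫ g, ker k 1 g ∂m with hI
  have hI0 : ∀ k, 0 ≤ I k := fun k => integral_nonneg fun g => (ker_pos k 1 g).le
  obtain ⟨C, c, hc, hode⟩ := Pool.Agent.H586Z.Ode.thm_ode ρ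
    (Real.exp 2 * (I 2 + 2 * I 1 + 4 * I 0) / α) hρ
  refine ⟨α * |C|, c, hc, fun σ hσ hσ1 v w => ?_⟩
  rw [← hU.TT_spec (integrable_ker m 0 hσ)]
  suffices hs : ‖TT m U (ker 0 σ)‖ ≤ α * |C| * σ ^ c / σ by
    refine (norm_inner_le_norm _ _).trans ?_
    have := (TT m U (ker 0 σ)).le_of_opNorm_le hs v
    nlinarith [norm_nonneg w]
  obtain ⟨φ, g1, g2, g3⟩ := gelfand {a | ∃ ψ, Rad m ψ ∧ a = TT m U ψ}
    (by rintro _ ⟨ψ, hψ, rfl⟩; exact hU.TT_sa hψ)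
    (by rintro _ ⟨ψ, hψ, rfl⟩ _ ⟨ψ', hψ', rfl⟩; exact hU.TT_comm hψ hψ')
    (a := TT m U (ker 0 σ)) ⟨_, rad_ker 0 hσ, rfl⟩
  have g4 : ∀ {ψ ψ' : G → ℝ}, Rad m ψ → Rad m ψ' →
      φ (TT m U ψ * TT m U ψ') = φ (TT m U ψ) * φ (TT m U ψ') :=
    fun h h' => g2 _ ⟨_, h, rfl⟩ _ ⟨_, h', rfl⟩
  rw [← g3]
  by_cases h0 : φ (TT m U (ker 0 σ)) = 0
  · rw [h0, abs_zero]; positivity
  set Λ : (G → ℝ) → ℝ := fun ψ => φ (TT m U ψ) with hΛd
  have hΛ : Fn m Λ := hU.fn φ g1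
  set l := -(Λ (Dker σ) / Λ (ker 0 σ)) with hl
  have hD : ∀ τ, 0 < τ → Λ (Dker τ) = -l * Λ (ker 0 τ) := by
    intro τ hτ
    have := congrArg φ (hU.TT_D (m := m) hτ hσ)
    rw [g4 (rad_Dker hτ) (rad_ker 0 hσ), g4 (rad_ker 0 hτ) (rad_Dker hσ)] at this
    rw [hl, neg_neg, div_mul_eq_mul_div, eq_div_iff h0]
    simp only [hΛd]
    linarith
  have k0 := abs_le.1 (hΛ.abs_ker_le 0 one_pos)
  have k1 := abs_le.1 (hΛ.abs_ker_le 1 one_pos)
  have k2 := abs_le.1 (hΛ.abs_ker_le 2 one_pos)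
  have i0 := hI0 0
  have i1 := hI0 1
  have i2 := hI0 2
  have key := hode l (rr Λ α) (rr1 Λ α) (fun τ hτ => hΛ.hasDerivAt_rr α hτ)
    (fun τ hτ => hΛ.hasDerivAt_rr1 α l hτ (hD τ hτ))
    (fun τ hτ => by
      have p := V_pos (m := m) hτ
      rw [rr_eq hα _ hτ, abs_div, abs_of_pos p, div_le_one p]
      exact hΛ.abs_ker_le 0 hτ)
    (tendsto_rr hU hα φ g1 hσ (fun τ hτ => g4 (rad_ker 0 hτ) (rad_ker 0 hσ)) h0)
    (by
      rw [rr_eq hα _ one_pos, div_le_iff₀ (V_pos one_pos)]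
      exact (le_abs_self _).trans ((g1 _).trans hgap))
    (by
      rw [rr1, abs_div, abs_mul, abs_of_pos α0, abs_of_pos (Real.exp_pos _), mul_one]
      gcongr
      simp only [hI] at i0 i1 i2 ⊢
      exact abs_le.2 ⟨by linarith [k0.1, k1.2], by linarith [k0.2, k1.1]⟩)
    (by
      have e := hD 1 one_pos
      rw [hΛ.Dker one_pos] at e
      have e2 : l * rr Λ α 1 = Real.exp 2 * (l * Λ (ker 0 1)) / α := by
        rw [rr, mul_one]; ring
      rw [e2, abs_div, abs_mul, abs_of_pos α0, abs_of_pos (Real.exp_pos _)]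
      gcongr
      simp only [hI] at i0 i1 i2 ⊢
      exact abs_le.2 ⟨by linarith [k0.1, k1.1, k2.2], by linarith [k0.2, k1.2, k2.1]⟩)
    σ hσ hσ1
  have p := V_pos (m := m) hσ
  rw [rr_eq hα _ hσ, abs_div, abs_of_pos p, div_le_iff₀ p, hα.2 σ hσ] at key
  refine key.trans ?_
  have e1 : Real.exp (-(2 * σ)) ≤ 1 := Real.exp_le_one_iff.2 (by linarith)
  calc C * σ ^ c * (α * Real.exp (-(2 * σ)) / σ) ≤ |C| * σ ^ c * (α * 1 / σ) := by
        gcongr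
        exact le_abs_self C
    _ = _ := by ring

end Pool.Agent.H800Z.Erg
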