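import Mathlib

/-! Geometry of `SL₂(ℝ)`: the squared Frobenius norm, rotations, one parameter subgroups, and the
tree of affine maps `z ↦ (z + j) / 4 ^ n`. -/

set_option autoImplicit false

open MeasureTheory Filter Topology

namespace Pool.Agent.H800Z.Erg

/-- The group. -/
abbrev G : Type := Matrix.SpecialLinearGroup (Fin 2) ℝ

/-- The squared Frobenius norm. -/
def N (g : G) : ℝ := ∑ i, ∑ j, ((g : Matrix (Fin 2) (Fin 2) ℝ) i j) ^ 2

lemma N_eq (g : G) : N g = g 0 0 ^ 2 + g 0 1 ^ 2 + g 1 0 ^ 2 + g 1 1 ^ 2 := by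
  simp only [N, Fin.sum_univ_two]; ring

lemma det_eq (g : G) : g 0 0 * g 1 1 - g 0 1 * g 1 0 = 1 := by
  have := g.det_coe
  rwa [Matrix.det_fin_two] at this

/-- An element given by its entries. -/
def mk (a b c d : ℝ) (h : a * d - b * c = 1) : G :=
  ⟨!![a, b; c, d], by rw [Matrix.det_fin_two_of]; exact h⟩

@[simp] lemma mk00 (a b c d : ℝ) (h : a * d - b * c = 1) : mk a b c d h 0 0 = a := rfl
@[simp] lemma mk01 (a b c d : ℝ) (h : a * d - b * c = 1) : mk a b c d h 0 1 = b := rfl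
@[simp] lemma mk10 (a b c d : ℝ) (h : a * d - b * c = 1) : mk a b c d h 1 0 = c := rfl
@[simp] lemma mk11 (a b c d : ℝ) (h : a * d - b * c = 1) : mk a b c d h 1 1 = d := rfl

lemma mul_apply (g h : G) (i j : Fin 2) : (g * h) i j = g i 0 * h 0 j + g i 1 * h 1 j := by
  show ((g * h : G) : Matrix (Fin 2) (Fin 2) ℝ) i j = _
  rw [Matrix.SpecialLinearGroup.coe_mul, Matrix.mul_apply, Fin.sum_univ_two]

lemma ext4 {g h : G} (h1 : g 0 0 = h 0 0) (h2 : g 0 1 = h 0 1) (h3 : g 1 0 = h 1 0)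
    (h4 : g 1 1 = h 1 1) : g = h := by
  ext i j
  fin_cases i <;> fin_cases j <;> assumption

@[simp] lemma one00 : (1 : G) 0 0 = 1 := rfl
@[simp] lemma one01 : (1 : G) 0 1 = 0 := rfl
@[simp] lemma one10 : (1 : G) 1 0 = 0 := rfl
@[simp] lemma one11 : (1 : G) 1 1 = 1 := rfl

lemma inv_eq (g : G) : g⁻¹ = mk (g 1 1) (-g 0 1) (-g 1 0) (g 0 0)
    (by linear_combination det_eq g) := by
  rw [inv_eq_iff_mul_eq_one]
  have := det_eq g
  apply ext4 <;> simp only [mul_apply, mk00, mk01, mk10, mk11, one00, one01, one10, one11] <;>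
    linarith

lemma N_inv (g : G) : N g⁻¹ = N g := by
  rw [inv_eq, N_eq, N_eq]; simp only [mk00, mk01, mk10, mk11]; ring

lemma two_le_N (g : G) : 2 ≤ N g := by
  rw [N_eq]
  nlinarith [det_eq g, sq_nonneg (g 0 0 - g 1 1), sq_nonneg (g 0 1 + g 1 0)]

lemma N_pos (g : G) : 0 < N g := by linarith [two_le_N g]

lemma N_one : N 1 = 2 := by rw [N_eq]; norm_num

lemma N_mul_le_sharp {g : G} {s : ℝ} (hs : 1 ≤ s) (hg : N g ≤ s + s⁻¹) (h : G) :
    N (g * h) ≤ s * N h := by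
  have hd := det_eq g
  rw [N_eq] at hg
  set a := g 0 0
  set b := g 0 1
  set c := g 1 0
  set d := g 1 1
  have hs0 : 0 < s := by linarith
  have h1 : s * (a ^ 2 + b ^ 2 + c ^ 2 + d ^ 2) ≤ s ^ 2 + 1 := by
    have := mul_le_mul_of_nonneg_left hg hs0.le
    rwa [mul_add s s, mul_inv_cancel₀ hs0.ne', ← pow_two] at this
  have h2 : s⁻¹ ≤ s := (inv_le_one_of_one_le₀ hs).trans hs
  have h3 : (a * b + c * d) ^ 2 ≤ (s - (a ^ 2 + c ^ 2)) * (s - (b ^ 2 + d ^ 2)) := by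
    have : (a ^ 2 + c ^ 2) * (b ^ 2 + d ^ 2) - (a * b + c * d) ^ 2 = 1 := by
      linear_combination (a * d - b * c + 1) * hd
    nlinarith
  have h4 : 0 ≤ (s - (a ^ 2 + c ^ 2)) + (s - (b ^ 2 + d ^ 2)) := by linarith
  have h5 : 0 ≤ s - (a ^ 2 + c ^ 2) := by
    by_contra hc
    push Not at hc
    nlinarith [sq_nonneg (a * b + c * d)]
  have h6 : 0 ≤ s - (b ^ 2 + d ^ 2) := by
    by_contra hc
    push Not at hc
    nlinarith [sq_nonneg (a * b + c * d)]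
  have key : ∀ x y : ℝ, (a * x + b * y) ^ 2 + (c * x + d * y) ^ 2 ≤ s * (x ^ 2 + y ^ 2) := by
    intro x y
    set P := s - (a ^ 2 + c ^ 2)
    set Q := s - (b ^ 2 + d ^ 2)
    set r := a * b + c * d
    have : 0 ≤ P * x ^ 2 - 2 * r * x * y + Q * y ^ 2 := by
      rcases h5.eq_or_lt with h7 | h7
      · have : r = 0 := by
          rw [← h7, zero_mul] at h3
          exact pow_eq_zero_iff (two_ne_zero) |>.1 (le_antisymm h3 (sq_nonneg r))
        rw [← h7, this]; nlinarith [sq_nonneg y]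
      · have : 0 ≤ P * (P * x ^ 2 - 2 * r * x * y + Q * y ^ 2) := by
          nlinarith [sq_nonneg (P * x - r * y), mul_nonneg (sub_nonneg.2 h3) (sq_nonneg y)]
        exact (mul_nonneg_iff_of_pos_left h7).1 this
    simp only [P, Q, r] at this
    nlinarith
  rw [N_eq, N_eq]
  simp only [mul_apply]
  have k1 := key (h 0 0) (h 1 0)
  have k2 := key (h 0 1) (h 1 1)
  nlinarith

lemma N_mul_le (g h : G) : N (g * h) ≤ N g * N h := by
  have := two_le_N g
  refine N_mul_le_sharp (by linarith) ?_ h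
  have : 0 < (N g)⁻¹ := inv_pos.2 (N_pos g)
  linarith

lemma N_rot_mul {k : G} (hk : N k = 2) (g : G) : N (k * g) = N g := by
  have h1 := N_mul_le_sharp (g := k) le_rfl (by rw [hk]; norm_num) g
  have h2 := N_mul_le_sharp (g := k⁻¹) le_rfl (by rw [N_inv, hk]; norm_num) (k * g)
  rw [inv_mul_cancel_left] at h2
  linarith

lemma N_mul_rot {k : G} (hk : N k = 2) (g : G) : N (g * k) = N g := by
  rw [← N_inv, mul_inv_rev, N_rot_mul (by rw [N_inv, hk]), N_inv]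

lemma exists_inv_eq (x : G) : ∃ k₁ k₂ : G, N k₁ = 2 ∧ N k₂ = 2 ∧ x⁻¹ = k₁ * x * k₂ := by
  have hd := det_eq x
  have h2 := two_le_N x
  rw [N_eq] at h2
  set a := x 0 0 with ha
  set b := x 0 1 with hb
  set c := x 1 0 with hc
  set d := x 1 1 with hd'
  have hpos : 0 < (b - c) ^ 2 + (a + d) ^ 2 := by nlinarith
  set ρ := √((b - c) ^ 2 + (a + d) ^ 2) with hρ
  have hρ0 : 0 < ρ := Real.sqrt_pos.2 hpos
  have hρ2 : ρ ^ 2 = (b - c) ^ 2 + (a + d) ^ 2 := Real.sq_sqrt hpos.le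
  set C := (b - c) / ρ with hC
  set S := -(a + d) / ρ with hS
  have h1 : C * C - (-S) * S = 1 := by
    rw [hC, hS]; field_simp; linarith
  have h3 : (a + d) * C + (b - c) * S = 0 := by
    rw [hC, hS]; field_simp; ring
  refine ⟨mk C (-S) S C h1, mk (-C) S (-S) (-C) (by linarith), ?_, ?_, ?_⟩
  · rw [N_eq]; simp only [mk00, mk01, mk10, mk11]; linarith
  · rw [N_eq]; simp only [mk00, mk01, mk10, mk11]; linarith
  · rw [inv_eq_iff_mul_eq_one]
    apply ext4 <;> simp only [mul_apply, mk00, mk01, mk10, mk11, one00, one01, one10, one11,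
      ← ha, ← hb, ← hc, ← hd']
    · linear_combination (-(a * C + b * S)) * h3 + (C * C + S * S) * hd + h1
    · linear_combination (a * S - b * C) * h3
    · linear_combination (-(c * C + d * S)) * h3
    · linear_combination (c * S - d * C) * h3 + (C * C + S * S) * hd + h1

/-- The diagonal one parameter group. -/
noncomputable def aH (s : ℝ) : G := mk (Real.exp (s / 2)) 0 0 (Real.exp (-(s / 2)))
  (by rw [← Real.exp_add]; simp)

/-- The symmetric one parameter group. -/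
noncomputable def aE (s : ℝ) : G :=
  mk (Real.cosh (s / 2)) (Real.sinh (s / 2)) (Real.sinh (s / 2)) (Real.cosh (s / 2))
    (by nlinarith [Real.cosh_sq (s / 2)])

def βRH (g : G) : ℝ := g 0 0 ^ 2 + g 1 0 ^ 2 - g 0 1 ^ 2 - g 1 1 ^ 2
def βRE (g : G) : ℝ := 2 * (g 0 0 * g 0 1 + g 1 0 * g 1 1)
def βLH (g : G) : ℝ := g 0 0 ^ 2 + g 0 1 ^ 2 - g 1 0 ^ 2 - g 1 1 ^ 2
def βLE (g : G) : ℝ := 2 * (g 0 0 * g 1 0 + g 0 1 * g 1 1)

lemma exp_half_sq (s : ℝ) : Real.exp (s / 2) ^ 2 = Real.cosh s + Real.sinh s := by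
  rw [Real.cosh_add_sinh, pow_two, ← Real.exp_add]; simp

lemma exp_neg_half_sq (s : ℝ) : Real.exp (-(s / 2)) ^ 2 = Real.cosh s - Real.sinh s := by
  rw [Real.cosh_sub_sinh, pow_two, ← Real.exp_add]; congr 1; ring

lemma cosh_half (s : ℝ) : Real.cosh s = Real.cosh (s / 2) ^ 2 + Real.sinh (s / 2) ^ 2 := by
  rw [← Real.cosh_two_mul]; congr 1; ring

lemma sinh_half (s : ℝ) : Real.sinh s = 2 * Real.sinh (s / 2) * Real.cosh (s / 2) := by
  rw [← Real.sinh_two_mul]; congr 1; ring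

lemma N_mul_aH (g : G) (s : ℝ) : N (g * aH s) = N g * Real.cosh s + βRH g * Real.sinh s := by
  rw [N_eq, N_eq, βRH]
  simp only [mul_apply, aH, mk00, mk01, mk10, mk11]
  linear_combination (g 0 0 ^ 2 + g 1 0 ^ 2) * exp_half_sq s +
    (g 0 1 ^ 2 + g 1 1 ^ 2) * exp_neg_half_sq s

lemma N_aH_mul (g : G) (s : ℝ) : N (aH s * g) = N g * Real.cosh s + βLH g * Real.sinh s := by
  rw [N_eq, N_eq, βLH]
  simp only [mul_apply, aH, mk00, mk01, mk10, mk11]
  linear_combination (g 0 0 ^ 2 + g 0 1 ^ 2) * exp_half_sq s +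
    (g 1 0 ^ 2 + g 1 1 ^ 2) * exp_neg_half_sq s

lemma N_mul_aE (g : G) (s : ℝ) : N (g * aE s) = N g * Real.cosh s + βRE g * Real.sinh s := by
  rw [N_eq, N_eq, βRE, cosh_half s, sinh_half s]
  simp only [mul_apply, aE, mk00, mk01, mk10, mk11]
  ring

lemma N_aE_mul (g : G) (s : ℝ) : N (aE s * g) = N g * Real.cosh s + βLE g * Real.sinh s := by
  rw [N_eq, N_eq, βLE, cosh_half s, sinh_half s]
  simp only [mul_apply, aE, mk00, mk01, mk10, mk11]
  ring

lemma βR_sq (g : G) : βRH g ^ 2 + βRE g ^ 2 = N g ^ 2 - 4 := by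
  rw [N_eq, βRH, βRE]
  linear_combination (-4 * (g 0 0 * g 1 1 - g 0 1 * g 1 0 + 1)) * det_eq g

lemma βL_sq (g : G) : βLH g ^ 2 + βLE g ^ 2 = N g ^ 2 - 4 := by
  rw [N_eq, βLH, βLE]
  linear_combination (-4 * (g 0 0 * g 1 1 - g 0 1 * g 1 0 + 1)) * det_eq g

lemma abs_le_N {β β' : ℝ} {g : G} (h : β ^ 2 + β' ^ 2 = N g ^ 2 - 4) : |β| ≤ N g :=
  abs_le_of_sq_le_sq (by nlinarith [sq_nonneg β']) (N_pos g).le

instance : LocallyCompactSpace G :=
  haveI : LocallyCompactSpace (Matrix (Fin 2) (Fin 2) ℝ) :=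
    inferInstanceAs (LocallyCompactSpace (Fin 2 → Fin 2 → ℝ))
  Matrix.SpecialLinearGroup.isClosedEmbedding_val.locallyCompactSpace

instance : SecondCountableTopology G :=
  haveI : SecondCountableTopology (Matrix (Fin 2) (Fin 2) ℝ) :=
    inferInstanceAs (SecondCountableTopology (Fin 2 → Fin 2 → ℝ))
  Matrix.SpecialLinearGroup.isClosedEmbedding_val.isEmbedding.secondCountableTopology

lemma continuous_entry (i j : Fin 2) : Continuous fun g : G => g i j :=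
  (continuous_apply j).comp (Matrix.SpecialLinearGroup.continuous_apply id continuous_id i)

lemma continuous_N : Continuous N := by
  have : N = fun g : G => g 0 0 ^ 2 + g 0 1 ^ 2 + g 1 0 ^ 2 + g 1 1 ^ 2 := funext N_eq
  rw [this]
  have := continuous_entry
  fun_prop

lemma continuous_βRH : Continuous βRH := by
  have := continuous_entry
  unfold βRH; fun_prop
lemma continuous_βRE : Continuous βRE := by
  have := continuous_entry
  unfold βRE; fun_prop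
lemma continuous_βLH : Continuous βLH := by
  have := continuous_entry
  unfold βLH; fun_prop
lemma continuous_βLE : Continuous βLE := by
  have := continuous_entry
  unfold βLE; fun_prop

/-- The open ball. -/
def B (R : ℝ) : Set G := {g | N g < R}

lemma mem_B {R : ℝ} {g : G} : g ∈ B R ↔ N g < R := Iff.rfl

lemma isOpen_B (R : ℝ) : IsOpen (B R) := isOpen_lt continuous_N continuous_const

lemma B_mono {R R' : ℝ} (h : R ≤ R') : B R ⊆ B R' := fun _ hg => lt_of_lt_of_le hg h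

lemma mul_mem_B {R R' : ℝ} {g h : G} (hg : g ∈ B R) (hh : h ∈ B R') : g * h ∈ B (R * R') :=
  (N_mul_le g h).trans_lt (mul_lt_mul'' hg hh (N_pos g).le (N_pos h).le)

lemma inv_mem_B {R : ℝ} {g : G} : g⁻¹ ∈ B R ↔ g ∈ B R := by rw [mem_B, mem_B, N_inv]

lemma isCompact_le (R : ℝ) : IsCompact {g : G | N g ≤ R} := by
  have h1 : IsCompact (Set.pi Set.univ fun _ : Fin 2 => Set.pi Set.univ fun _ : Fin 2 =>
      Set.Icc (-(|R| + 1)) (|R| + 1)) :=
    isCompact_univ_pi fun _ => isCompact_univ_pi fun _ => isCompact_Icc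
  have h2 := (Matrix.SpecialLinearGroup.isClosedEmbedding_val (n := Fin 2)
    (R := ℝ)).isCompact_preimage h1
  refine h2.of_isClosed_subset (isClosed_le continuous_N continuous_const) ?_
  intro (g : G) hg i _ j _
  have hg' : N g ≤ R := hg
  have h3 : g i j ^ 2 ≤ N g := by
    rw [N_eq]
    fin_cases i <;> fin_cases j <;> simp <;>
      nlinarith [sq_nonneg (g 0 0), sq_nonneg (g 0 1), sq_nonneg (g 1 0), sq_nonneg (g 1 1)]
  have h4 : |g i j| ≤ |R| + 1 := by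
    refine abs_le_of_sq_le_sq ?_ (by positivity)
    nlinarith [le_abs_self R, abs_nonneg R]
  exact abs_le.1 h4

/-- The affine map `z ↦ (z + j) / 4 ^ n`. -/
noncomputable def w (n j : ℕ) : G := mk ((2 ^ n)⁻¹) (j * (2 ^ n)⁻¹) 0 (2 ^ n) (by simp)

lemma w_zero : w 0 0 = 1 := by
  apply ext4 <;> simp [w]

lemma w_succ (n j b : ℕ) : w (n + 1) (4 * j + b) = w n j * w 1 b := by
  apply ext4 <;> simp only [mul_apply, w, mk00, mk01, mk10, mk11]
  · field_simp; ring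
  · push_cast; field_simp; ring
  · simp
  · simp [pow_succ]

lemma N_w {n j : ℕ} (hj : j < 4 ^ n) : N (w n j) < 3 * 4 ^ n := by
  rw [N_eq]
  simp only [w, mk00, mk01, mk10, mk11]
  have h1 : ((2 : ℝ) ^ n) ^ 2 = 4 ^ n := by rw [← pow_mul, mul_comm, pow_mul]; norm_num
  have h2 : (j : ℝ) ≤ 4 ^ n := by exact_mod_cast hj.le
  have h3 : (1 : ℝ) ≤ 4 ^ n := one_le_pow₀ (by norm_num)
  have h4 : (j : ℝ) + 1 ≤ 4 ^ n := by exact_mod_cast hj
  have h5 : (0 : ℝ) ≤ j := Nat.cast_nonneg j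
  rw [mul_pow, inv_pow, h1]
  set Q : ℝ := 4 ^ n
  have h6 : Q⁻¹ ≤ 1 := inv_le_one_of_one_le₀ h3
  have h7 : (j : ℝ) ^ 2 * Q⁻¹ < Q := by
    rw [← div_eq_mul_inv, div_lt_iff₀ (by linarith)]
    nlinarith
  linarith

lemma N_w_inv_mul (n j j' : ℕ) : N ((w n j)⁻¹ * w n j') = 2 + ((j' : ℝ) - j) ^ 2 := by
  rw [inv_eq, N_eq]
  simp only [mul_apply, w, mk00, mk01, mk10, mk11]
  field_simp
  ring

open Classical in
/-- Bounded overlap of the translated balls. -/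
lemma overlap (n : ℕ) (g : G) :
    ((Finset.range (4 ^ n)).filter fun j => (w n j)⁻¹ * g ∈ B 9).card ≤ 19 := by
  set S := (Finset.range (4 ^ n)).filter fun j => (w n j)⁻¹ * g ∈ B 9
  rcases S.eq_empty_or_nonempty with h | ⟨j, hj⟩
  · simp [h]
  have : S ⊆ Finset.Icc (j - 9) (j + 9) := by
    intro j' hj'
    have h1 := mul_mem_B (Finset.mem_filter.1 hj).2 (inv_mem_B.2 (Finset.mem_filter.1 hj').2)
    rw [mem_B, mul_inv_rev, inv_inv, mul_assoc, mul_inv_cancel_left, N_w_inv_mul] at h1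
    have h2 : |(j' : ℝ) - j| ≤ 9 := abs_le_of_sq_le_sq (by linarith) (by norm_num)
    obtain ⟨h3, h4⟩ := abs_le.1 h2
    have h5 : (j : ℝ) ≤ j' + 9 := by linarith
    have h6 : (j' : ℝ) ≤ j + 9 := by linarith
    have h7 : j ≤ j' + 9 := by exact_mod_cast h5
    have h8 : j' ≤ j + 9 := by exact_mod_cast h6
    rw [Finset.mem_Icc]; omega
  refine (Finset.card_le_card this).trans ?_
  rw [Nat.card_Icc]; omega

lemma mem_B_of_w {n j : ℕ} (hj : j < 4 ^ n) {g : G} (hg : (w n j)⁻¹ * g ∈ B 9) :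
    g ∈ B (27 * 4 ^ n) := by
  have := mul_mem_B (show w n j ∈ B (3 * 4 ^ n) from N_w hj) hg
  rw [mul_inv_cancel_left] at this
  convert this using 2; ring

/-- Four elements which move every point into the strip `0 ≤ x ≤ 1`. -/
def kk : Fin 4 → G := ![mk 1 0 0 1 (by norm_num), mk 1 (-1) 0 1 (by norm_num),
  mk 0 (-1) 1 0 (by norm_num), mk 0 (-1) 1 (-1) (by norm_num)]

lemma cover_strip {n : ℕ} {g : G} (h1 : 1 ≤ g 1 0 ^ 2 + g 1 1 ^ 2)
    (h2 : g 1 0 ^ 2 + g 1 1 ^ 2 < 4 ^ n) (h3 : 0 ≤ g 0 0 * g 1 0 + g 0 1 * g 1 1)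
    (h4 : g 0 0 * g 1 0 + g 0 1 * g 1 1 ≤ g 1 0 ^ 2 + g 1 1 ^ 2) :
    ∃ m < n, ∃ j < 4 ^ m, (w m j)⁻¹ * g ∈ B 9 := by
  have hd := det_eq g
  set a := g 0 0 with ha
  set b := g 0 1 with hb
  set c := g 1 0 with hc
  set d := g 1 1 with hd'
  set Y := c ^ 2 + d ^ 2 with hY
  obtain ⟨m, hm1, hm2⟩ := exists_nat_pow_near h1 (show (1 : ℝ) < 4 by norm_num)
  have hmn : m < n := by
    by_contra hc
    push Not at hc
    have : (4 : ℝ) ^ n ≤ 4 ^ m := pow_le_pow_right₀ (by norm_num) hc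
    linarith
  have hY0 : 0 < Y := by linarith
  set x := (a * c + b * d) / Y with hx
  have hx0 : 0 ≤ x := div_nonneg h3 hY0.le
  have hx1 : x ≤ 1 := (div_le_one hY0).2 h4
  have hQ : (1 : ℝ) ≤ 4 ^ m := one_le_pow₀ (by norm_num)
  obtain ⟨j, hj1, hj2⟩ : ∃ j : ℕ, j < 4 ^ m ∧ |4 ^ m * x - j| ≤ 1 := by
    by_cases hlt : ⌊4 ^ m * x⌋₊ < 4 ^ m
    · refine ⟨_, hlt, ?_⟩
      have a1 := Nat.floor_le (show 0 ≤ 4 ^ m * x by positivity)
      have a2 := Nat.lt_floor_add_one (4 ^ m * x)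
      rw [abs_le]; constructor <;> linarith
    · push Not at hlt
      have a0 : 1 ≤ 4 ^ m := Nat.one_le_pow _ _ (by norm_num)
      refine ⟨4 ^ m - 1, by omega, ?_⟩
      have a1 := Nat.floor_le (show 0 ≤ 4 ^ m * x by positivity)
      have a2 : ((4 : ℝ) ^ m) ≤ ⌊4 ^ m * x⌋₊ := by exact_mod_cast hlt
      have a3 : 4 ^ m * x ≤ 4 ^ m := by nlinarith
      rw [Nat.cast_sub a0]
      push_cast
      rw [abs_le]; constructor <;> linarith
  refine ⟨m, hmn, j, hj1, ?_⟩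
  rw [mem_B, inv_eq, N_eq]
  simp only [mul_apply, w, mk00, mk01, mk10, mk11, ← ha, ← hb, ← hc, ← hd']
  have e1 : ((2 : ℝ) ^ m) ^ 2 = 4 ^ m := by rw [← pow_mul, mul_comm, pow_mul]; norm_num
  set t : ℝ := 2 ^ m with ht
  have ht0 : 0 < t := by positivity
  rw [pow_succ] at hm2
  rw [← e1] at hj2 hm1 hm2 hQ
  have ea : a = x * c + d / Y := by
    rw [hx]; field_simp; rw [hY]; linear_combination d * hd
  have eb : b = x * d - c / Y := by
    rw [hx]; field_simp; rw [hY]; linear_combination (-c) * hd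
  have e2 : (t * a + -(j * t⁻¹) * c) ^ 2 + (t * b + -(j * t⁻¹) * d) ^ 2 + (-0 * a + t⁻¹ * c) ^ 2 +
      (-0 * b + t⁻¹ * d) ^ 2 = (t ^ 2 * x - j) ^ 2 * (Y / t ^ 2) + t ^ 2 / Y + Y / t ^ 2 := by
    rw [ea, eb]; field_simp; rw [hY]; ring
  rw [e2]
  have b1 : Y / t ^ 2 < 4 := by rw [div_lt_iff₀ (by positivity)]; linarith
  have b2 : t ^ 2 / Y ≤ 1 := (div_le_one hY0).2 hm1
  have b3 : (t ^ 2 * x - j) ^ 2 ≤ 1 := by
    rw [← sq_abs]; nlinarith [abs_nonneg (t ^ 2 * x - j)]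
  have b4 : 0 ≤ Y / t ^ 2 := by positivity
  nlinarith

/-- The ball of radius `4 ^ n` is covered by translates of a fixed ball. -/
lemma cover {n : ℕ} {g : G} (hg : g ∈ B (4 ^ n)) :
    ∃ l : Fin 4, ∃ m < n, ∃ j < 4 ^ m, (kk l * w m j)⁻¹ * g ∈ B 9 := by
  have h2 := two_le_N g
  rw [mem_B] at hg
  rw [N_eq] at h2 hg
  have key : ∀ l : Fin 4, (∃ m < n, ∃ j < 4 ^ m, (w m j)⁻¹ * ((kk l)⁻¹ * g) ∈ B 9) →
      ∃ l : Fin 4, ∃ m < n, ∃ j < 4 ^ m, (kk l * w m j)⁻¹ * g ∈ B 9 := by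
    rintro l ⟨m, hm, j, hj, h⟩
    exact ⟨l, m, hm, j, hj, by rwa [mul_inv_rev, mul_assoc]⟩
  set a := g 0 0 with ha
  set b := g 0 1 with hb
  set c := g 1 0 with hc
  set d := g 1 1 with hd'
  have cs : ∀ p q r s : ℝ, p ^ 2 + q ^ 2 ≤ r ^ 2 + s ^ 2 → |p * r + q * s| ≤ r ^ 2 + s ^ 2 := by
    intro p q r s h
    refine abs_le_of_sq_le_sq ?_ (by positivity)
    nlinarith [sq_nonneg (p * s - q * r), mul_le_mul_of_nonneg_right h
      (show 0 ≤ r ^ 2 + s ^ 2 by positivity)]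
  have k0 : kk 0 = mk 1 0 0 1 (by norm_num) := rfl
  have k1 : kk 1 = mk 1 (-1) 0 1 (by norm_num) := rfl
  have k2 : kk 2 = mk 0 (-1) 1 0 (by norm_num) := rfl
  have k3 : kk 3 = mk 0 (-1) 1 (-1) (by norm_num) := rfl
  rcases le_total (a ^ 2 + b ^ 2) (c ^ 2 + d ^ 2) with h | h
  · obtain ⟨c1, c2⟩ := abs_le.1 (cs a b c d h)
    rcases le_total 0 (a * c + b * d) with h' | h'
    · refine key 0 (cover_strip ?_ ?_ ?_ ?_) <;> rw [k0, inv_eq] <;>
        simp only [mul_apply, mk00, mk01, mk10, mk11, ← ha, ← hb, ← hc, ← hd'] <;>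
        nlinarith [sq_nonneg a, sq_nonneg b]
    · refine key 1 (cover_strip ?_ ?_ ?_ ?_) <;> rw [k1, inv_eq] <;>
        simp only [mul_apply, mk00, mk01, mk10, mk11, ← ha, ← hb, ← hc, ← hd'] <;>
        nlinarith [sq_nonneg a, sq_nonneg b]
  · obtain ⟨c1, c2⟩ := abs_le.1 (cs c d a b h)
    rcases le_total 0 (c * a + d * b) with h' | h'
    · refine key 3 (cover_strip ?_ ?_ ?_ ?_) <;> rw [k3, inv_eq] <;>
        simp only [mul_apply, mk00, mk01, mk10, mk11, ← ha, ← hb, ← hc, ← hd'] <;>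
        nlinarith [sq_nonneg c, sq_nonneg d]
    · refine key 2 (cover_strip ?_ ?_ ?_ ?_) <;> rw [k2, inv_eq] <;>
        simp only [mul_apply, mk00, mk01, mk10, mk11, ← ha, ← hb, ← hc, ← hd'] <;>
        nlinarith [sq_nonneg c, sq_nonneg d]

end Pool.Agent.H800Z.Erg
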