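import Pool.Agent.H800Z.Erg.Geo

/-! Haar measure on `SL₂(ℝ)`: unimodularity and growth of balls. -/

set_option autoImplicit false
set_option linter.unusedSectionVars false

open MeasureTheory Filter Topology
open scoped ENNReal NNReal

namespace Pool.Agent.H800Z.Erg

variable [MeasurableSpace G] [BorelSpace G] (m : Measure G) [m.IsHaarMeasure]

lemma measurable_N : Measurable N := continuous_N.measurable

lemma measurableSet_B (R : ℝ) : MeasurableSet (B R) := (isOpen_B R).measurableSet

lemma isMulRightInvariant : m.IsMulRightInvariant := by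
  constructor
  intro g
  rw [Measure.map_right_mul_eq_modularCharacterFun_smul]
  have h1 : commutator G ≤ (Measure.modularCharacter (G := G)).ker := by
    rw [commutator, Subgroup.commutator_le]
    intro a _ b _
    rw [MonoidHom.mem_ker, commutatorElement_def, map_mul, map_mul, map_mul, mul_assoc,
      mul_mul_mul_comm, ← map_mul, ← map_mul]
    simp
  rw [Matrix.SL2.commutator_eq_top (a := (2 : ℝ)) (by norm_num) (by norm_num)] at h1
  have h2 : Measure.modularCharacterFun g = 1 := h1 (Subgroup.mem_top g)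
  rw [h2, one_smul]

lemma isInvInvariant : m.IsInvInvariant := by
  have := isMulRightInvariant m
  constructor
  let c : ℝ≥0∞ := Measure.haarScalarFactor m.inv m
  have hc : m.inv = c • m := Measure.isMulLeftInvariant_eq_smul m.inv m
  have : Measure.map Inv.inv (Measure.map Inv.inv m) = c ^ 2 • m := by
    rw [← Measure.inv_def m, hc, Measure.map_smul, ← Measure.inv_def m, hc, smul_smul, pow_two]
  have μeq : m = c ^ 2 • m := by
    rw [Measure.map_map continuous_inv.measurable continuous_inv.measurable] at this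
    simpa only [inv_involutive, Function.Involutive.comp_self, Measure.map_id]
  have K : TopologicalSpace.PositiveCompacts G := Classical.arbitrary _
  have : c ^ 2 * m K = 1 ^ 2 * m K := by
    conv_rhs => rw [μeq]
    simp
  have : c ^ 2 = 1 ^ 2 :=
    (ENNReal.mul_left_inj (Measure.measure_pos_of_nonempty_interior _ K.interior_nonempty).ne'
          K.isCompact.measure_lt_top.ne).1 this
  have : c = 1 := (ENNReal.pow_right_strictMono two_ne_zero).injective this
  rw [hc, this, one_smul]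

omit [BorelSpace G] in
lemma measure_B_lt_top (R : ℝ) : m (B R) < ∞ :=
  (measure_mono (show B R ⊆ {g : G | N g ≤ R} from fun _ hg => le_of_lt (mem_B.1 hg))).trans_lt
    (isCompact_le R).measure_lt_top

omit [BorelSpace G] in
lemma measure_B_pos {R : ℝ} (hR : 2 < R) : 0 < m (B R) :=
  (isOpen_B R).measure_pos m ⟨1, by rw [mem_B, N_one]; exact hR⟩

lemma sum_four_pow_le (n : ℕ) : ∑ i ∈ Finset.range n, 4 ^ i ≤ 4 ^ n := by
  induction n with
  | zero => simp
  | succ n ih => rw [Finset.sum_range_succ, pow_succ]; omega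

lemma growth (n : ℕ) : m (B (4 ^ n)) ≤ 4 * 4 ^ n * m (B 9) := by
  have h1 : B (4 ^ n) ⊆ ⋃ l ∈ (Finset.univ : Finset (Fin 4)), ⋃ i ∈ Finset.range n,
      ⋃ j ∈ Finset.range (4 ^ i), (fun g => (kk l * w i j)⁻¹ * g) ⁻¹' B 9 := by
    intro g hg
    obtain ⟨l, i, hi, j, hj, h⟩ := cover hg
    simp only [Set.mem_iUnion]
    exact ⟨l, Finset.mem_univ _, i, Finset.mem_range.2 hi, j, Finset.mem_range.2 hj, h⟩
  refine (measure_mono h1).trans ((measure_biUnion_finset_le _ _).trans ?_)
  have h2 : ∀ l : Fin 4, m (⋃ i ∈ Finset.range n,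
      ⋃ j ∈ Finset.range (4 ^ i), (fun g => (kk l * w i j)⁻¹ * g) ⁻¹' B 9) ≤ 4 ^ n * m (B 9) := by
    intro l
    refine (measure_biUnion_finset_le _ _).trans ?_
    calc _ ≤ ∑ i ∈ Finset.range n, ((4 ^ i : ℕ) : ℝ≥0∞) * m (B 9) := by
          refine Finset.sum_le_sum fun i _ => (measure_biUnion_finset_le _ _).trans ?_
          simp only [measure_preimage_mul, Finset.sum_const, Finset.card_range, nsmul_eq_mul]
          exact le_rfl
      _ = ((∑ i ∈ Finset.range n, 4 ^ i : ℕ) : ℝ≥0∞) * m (B 9) := by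
          rw [← Finset.sum_mul, Nat.cast_sum]
      _ ≤ ((4 ^ n : ℕ) : ℝ≥0∞) * m (B 9) := by
          gcongr
          exact sum_four_pow_le n
      _ = _ := by simp
  refine (Finset.sum_le_sum fun l _ => h2 l).trans ?_
  simp [mul_assoc]

lemma integrable_inv_sq : Integrable (fun g => (N g ^ 2)⁻¹) m := by
  refine ⟨((measurable_N.pow_const 2).inv).aestronglyMeasurable, ?_⟩
  have h1 : ∀ g, ‖(N g ^ 2)⁻¹‖ₑ ≤ ∑' n : ℕ, (B (4 ^ (n + 1))).indicator
      (fun _ => ((16 : ℝ≥0∞)⁻¹) ^ n) g := by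
    intro g
    obtain ⟨n, h1, h2⟩ := exists_nat_pow_near (show 1 ≤ N g by linarith [two_le_N g])
      (show (1 : ℝ) < 4 by norm_num)
    refine le_trans ?_ (ENNReal.le_tsum n)
    rw [Set.indicator_of_mem (show g ∈ B (4 ^ (n + 1)) from h2),
      Real.enorm_eq_ofReal (by positivity)]
    have h3 : (N g ^ 2)⁻¹ ≤ (16⁻¹ : ℝ) ^ n := by
      rw [inv_pow]
      refine inv_anti₀ (by positivity) ?_
      calc (16 : ℝ) ^ n = (4 ^ n) ^ 2 := by rw [← pow_mul, mul_comm, pow_mul]; norm_num
        _ ≤ _ := by gcongr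
    refine (ENNReal.ofReal_le_ofReal h3).trans (le_of_eq ?_)
    rw [ENNReal.ofReal_pow (by norm_num), ENNReal.ofReal_inv_of_pos (by norm_num)]
    simp
  refine (lintegral_mono h1).trans_lt ?_
  rw [lintegral_tsum fun n => (measurable_const.indicator (measurableSet_B _)).aemeasurable]
  have h2 : ∀ n : ℕ, ∫⁻ g, (B (4 ^ (n + 1))).indicator (fun _ => ((16 : ℝ≥0∞)⁻¹) ^ n) g ∂m ≤
      (16 * m (B 9)) * (4⁻¹) ^ n := by
    intro n
    rw [lintegral_indicator_const (measurableSet_B _)]
    refine (mul_le_mul_right (growth m (n + 1)) _).trans (le_of_eq ?_)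
    have : (16 : ℝ≥0∞)⁻¹ * 4 = 4⁻¹ := by
      rw [show (16 : ℝ≥0∞) = 4 * 4 by norm_num, ENNReal.mul_inv (by simp) (by simp), mul_assoc,
        ENNReal.inv_mul_cancel (by simp) (by simp), mul_one]
    rw [← this, mul_pow, pow_succ]
    ring
  refine (ENNReal.tsum_le_tsum h2).trans_lt ?_
  rw [ENNReal.tsum_mul_left, ENNReal.tsum_geometric]
  refine ENNReal.mul_lt_top (ENNReal.mul_lt_top (by simp) (measure_B_lt_top m 9)) ?_
  rw [ENNReal.inv_lt_top, tsub_pos_iff_lt]
  exact ENNReal.inv_lt_one.2 (by norm_num)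

/-- The kernels `N ^ k * exp (- τ N)`. -/
noncomputable def ker (k : ℕ) (τ : ℝ) (g : G) : ℝ := N g ^ k * Real.exp (-(τ * N g))

omit [MeasurableSpace G] [BorelSpace G] in
lemma continuous_ker (k : ℕ) (τ : ℝ) : Continuous (ker k τ) := by
  have := continuous_N
  unfold ker; fun_prop

omit [MeasurableSpace G] [BorelSpace G] in
lemma ker_pos (k : ℕ) (τ : ℝ) (g : G) : 0 < ker k τ g :=
  mul_pos (pow_pos (N_pos g) k) (Real.exp_pos _)

omit [MeasurableSpace G] [BorelSpace G] in
lemma ker_zero (τ : ℝ) (g : G) : ker 0 τ g = Real.exp (-(τ * N g)) := by simp [ker]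

lemma integrable_ker (k : ℕ) {τ : ℝ} (hτ : 0 < τ) : Integrable (ker k τ) m := by
  refine ((integrable_inv_sq m).const_mul (((k + 2).factorial : ℝ) / τ ^ (k + 2))).mono'
    (continuous_ker k τ).aestronglyMeasurable (Eventually.of_forall fun g => ?_)
  rw [Real.norm_of_nonneg (ker_pos k τ g).le, ker, Real.exp_neg]
  have h0 := N_pos g
  have h1 := Real.pow_div_factorial_le_exp (τ * N g) (by positivity) (k + 2)
  have h2 : (0 : ℝ) < (k + 2).factorial := by exact_mod_cast Nat.factorial_pos _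
  have h3 : (Real.exp (τ * N g))⁻¹ ≤ ((τ * N g) ^ (k + 2) / (k + 2).factorial)⁻¹ :=
    inv_anti₀ (by positivity) h1
  refine (mul_le_mul_of_nonneg_left h3 (by positivity)).trans (le_of_eq ?_)
  field_simp
  ring

/-- The total mass of the kernel. -/
noncomputable def V (τ : ℝ) : ℝ := ∫ g, ker 0 τ g ∂m

end Pool.Agent.H800Z.Erg
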