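import Pool.Agent.H800Z.Erg.St2

/-! Derivatives of the kernels, and the mass of the kernels. -/

set_option autoImplicit false
set_option linter.unusedSectionVars false

open MeasureTheory Filter Topology

namespace Pool.Agent.H800Z.Erg

variable [MeasurableSpace G] [BorelSpace G] {m : Measure G} [m.IsHaarMeasure]

/-- A linear functional on integrable functions, of norm at most one. -/
structure Fn (m : Measure G) (Λ : (G → ℝ) → ℝ) : Prop where
  add : ∀ ψ φ, Integrable ψ m → Integrable φ m → Λ (fun g => ψ g + φ g) = Λ ψ + Λ φ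
  smul : ∀ (c : ℝ) ψ, Integrable ψ m → Λ (fun g => c * ψ g) = c * Λ ψ
  bound : ∀ ψ, Integrable ψ m → |Λ ψ| ≤ ∫ g, |ψ g| ∂m

lemma fn_integral : Fn m (fun ψ => ∫ g, ψ g ∂m) :=
  ⟨fun _ _ h1 h2 => integral_add h1 h2, fun c ψ _ => integral_const_mul c ψ,
    fun _ _ => abs_integral_le_integral_abs⟩

lemma abs_exp_taylor (x : ℝ) : |Real.exp x - 1 - x| ≤ x ^ 2 * Real.exp |x| := by
  have h1 := Real.add_one_le_exp x
  have h2 := Real.add_one_le_exp (-x)
  have h3 : Real.exp x * Real.exp (-x) = 1 := by rw [← Real.exp_add]; simp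
  have h4 := Real.exp_pos x
  have h5 : Real.exp x - 1 ≤ x * Real.exp x := by nlinarith
  rw [abs_of_nonneg (by linarith)]
  rcases le_total 0 x with h | h
  · rw [abs_of_nonneg h]; nlinarith
  · have : 1 ≤ Real.exp |x| := Real.one_le_exp (abs_nonneg x)
    nlinarith [sq_nonneg x]

lemma Fn.comb3 {Λ : (G → ℝ) → ℝ} (hΛ : Fn m Λ) (a b c : ℝ) {ψ φ χ : G → ℝ} (h1 : Integrable ψ m)
    (h2 : Integrable φ m) (h3 : Integrable χ m) :
    Λ (fun g => a * ψ g + b * φ g + c * χ g) = a * Λ ψ + b * Λ φ + c * Λ χ := by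
  rw [hΛ.add (fun g => a * ψ g + b * φ g) (fun g => c * χ g)
    ((h1.const_mul a).add (h2.const_mul b)) (h3.const_mul c),
    hΛ.add _ _ (h1.const_mul a) (h2.const_mul b), hΛ.smul _ _ h1, hΛ.smul _ _ h2, hΛ.smul _ _ h3]

lemma Fn.hasDerivAt {Λ : (G → ℝ) → ℝ} (hΛ : Fn m Λ) (k : ℕ) {τ : ℝ} (hτ : 0 < τ) :
    HasDerivAt (fun t => Λ (ker k t)) (-Λ (ker (k + 1) τ)) τ := by
  rw [hasDerivAt_iff_isLittleO_nhds_zero]
  refine Asymptotics.IsBigO.trans_isLittleO (g := fun h : ℝ => h ^ 2) ?_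
    (Asymptotics.isLittleO_pow_id one_lt_two)
  refine Asymptotics.IsBigO.of_bound (∫ g, ker (k + 2) (τ / 2) g ∂m) ?_
  filter_upwards [Ioo_mem_nhds (show -(τ / 2) < 0 by linarith) (show 0 < τ / 2 by linarith)]
    with h hh
  have i1 := integrable_ker m k (show 0 < τ + h by linarith [hh.1])
  have i2 := integrable_ker m k hτ
  have i3 := integrable_ker m (k + 1) hτ
  have e := hΛ.comb3 1 (-1) h i1 i2 i3
  have e2 : Λ (ker k (τ + h)) - Λ (ker k τ) - h • -Λ (ker (k + 1) τ) =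
      Λ (fun g => 1 * ker k (τ + h) g + -1 * ker k τ g + h * ker (k + 1) τ g) := by
    rw [e, smul_eq_mul]; ring
  rw [e2, Real.norm_eq_abs]
  have i4 : Integrable (fun g => 1 * ker k (τ + h) g + -1 * ker k τ g + h * ker (k + 1) τ g) m :=
    ((i1.const_mul 1).add (i2.const_mul (-1))).add (i3.const_mul h)
  refine (hΛ.bound _ i4).trans ?_
  rw [← integral_mul_const]
  refine integral_mono i4.abs ((integrable_ker m (k + 2) (by linarith)).mul_const _) fun g => ?_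
  have hN := N_pos g
  have e3 : 1 * ker k (τ + h) g + -1 * ker k τ g + h * ker (k + 1) τ g =
      ker k τ g * (Real.exp (-(h * N g)) - 1 - -(h * N g)) := by
    simp only [ker]
    rw [show -((τ + h) * N g) = -(τ * N g) + -(h * N g) by ring, Real.exp_add]
    ring
  show |_| ≤ _
  rw [e3, abs_mul, abs_of_pos (ker_pos k τ g), Real.norm_eq_abs, abs_of_nonneg (sq_nonneg h)]
  refine (mul_le_mul_of_nonneg_left (abs_exp_taylor _) (ker_pos k τ g).le).trans ?_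
  have e4 : Real.exp |-(h * N g)| ≤ Real.exp (τ / 2 * N g) := by
    rw [Real.exp_le_exp, abs_neg, abs_mul, abs_of_pos hN]
    exact mul_le_mul_of_nonneg_right (abs_le.2 ⟨hh.1.le, hh.2.le⟩) hN.le
  calc ker k τ g * ((-(h * N g)) ^ 2 * Real.exp |-(h * N g)|)
      ≤ ker k τ g * ((-(h * N g)) ^ 2 * Real.exp (τ / 2 * N g)) := by
        have := (ker_pos k τ g).le
        gcongr
    _ = ker (k + 2) (τ / 2) g * h ^ 2 := by
        simp only [ker]
        rw [show -(τ / 2 * N g) = -(τ * N g) + τ / 2 * N g by ring, Real.exp_add]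
        ring

/-- The radial Laplacian of the kernel. -/
noncomputable def Dker (τ : ℝ) (g : G) : ℝ :=
  τ ^ 2 * ker 2 τ g + (-(2 * τ)) * ker 1 τ g + (-(4 * τ ^ 2)) * ker 0 τ g

lemma integrable_Dker {τ : ℝ} (hτ : 0 < τ) : Integrable (Dker τ) m :=
  (((integrable_ker m 2 hτ).const_mul _).add ((integrable_ker m 1 hτ).const_mul _)).add
    ((integrable_ker m 0 hτ).const_mul _)

lemma Fn.Dker {Λ : (G → ℝ) → ℝ} (hΛ : Fn m Λ) {τ : ℝ} (hτ : 0 < τ) : Λ (Dker τ) =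
    τ ^ 2 * Λ (ker 2 τ) + (-(2 * τ)) * Λ (ker 1 τ) + (-(4 * τ ^ 2)) * Λ (ker 0 τ) :=
  hΛ.comb3 _ _ _ (integrable_ker m 2 hτ) (integrable_ker m 1 hτ) (integrable_ker m 0 hτ)

/-- The normalised transform. -/
noncomputable def rr (Λ : (G → ℝ) → ℝ) (α τ : ℝ) : ℝ := τ * Real.exp (2 * τ) * Λ (ker 0 τ) / α

/-- Its derivative. -/
noncomputable def rr1 (Λ : (G → ℝ) → ℝ) (α τ : ℝ) : ℝ :=
  Real.exp (2 * τ) * ((1 + 2 * τ) * Λ (ker 0 τ) - τ * Λ (ker 1 τ)) / α

lemma hasDerivAt_exp_two (τ : ℝ) :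
    HasDerivAt (fun t => Real.exp (2 * t)) (Real.exp (2 * τ) * 2) τ := by
  simpa using ((hasDerivAt_id τ).const_mul 2).exp

lemma Fn.hasDerivAt_rr {Λ : (G → ℝ) → ℝ} (hΛ : Fn m Λ) (α : ℝ) {τ : ℝ} (hτ : 0 < τ) :
    HasDerivAt (rr Λ α) (rr1 Λ α τ) τ := by
  have := (((hasDerivAt_id τ).mul (hasDerivAt_exp_two τ)).mul (hΛ.hasDerivAt 0 hτ)).div_const α
  refine HasDerivAt.congr_deriv this ?_
  simp only [rr1, id, Pi.mul_apply]; ring

lemma Fn.hasDerivAt_rr1 {Λ : (G → ℝ) → ℝ} (hΛ : Fn m Λ) (α l : ℝ) {τ : ℝ} (hτ : 0 < τ)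
    (hl : Λ (Erg.Dker τ) = -l * Λ (ker 0 τ)) :
    HasDerivAt (rr1 Λ α) (4 * rr1 Λ α τ - l * rr Λ α τ / τ ^ 2) τ := by
  have h1 : HasDerivAt (fun t : ℝ => 1 + 2 * t) 2 τ := by
    simpa using ((hasDerivAt_id τ).const_mul 2).const_add 1
  have := ((hasDerivAt_exp_two τ).mul ((h1.mul (hΛ.hasDerivAt 0 hτ)).sub
    ((hasDerivAt_id τ).mul (hΛ.hasDerivAt 1 hτ)))).div_const α
  refine HasDerivAt.congr_deriv this ?_
  · rw [hΛ.Dker hτ] at hl
    simp only [rr1, rr, id, Pi.mul_apply, Pi.sub_apply]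
    have e : l * (τ * Real.exp (2 * τ) * Λ (ker 0 τ) / α) / τ ^ 2 =
        Real.exp (2 * τ) * (l * Λ (ker 0 τ) / τ) / α := by
      field_simp
    have e2 : l * Λ (ker 0 τ) / τ = -(τ * Λ (ker 2 τ)) + 2 * Λ (ker 1 τ) + 4 * τ * Λ (ker 0 τ) := by
      field_simp
      linarith
    rw [e, e2]
    ring

section second

/-- The kernel moved along a one parameter group. -/
noncomputable def mv (τ : ℝ) (β : G → ℝ) (s : ℝ) (g : G) : ℝ :=
  Real.exp (-(τ * (N g * Real.cosh s + β g * Real.sinh s)))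

noncomputable def mv1 (τ : ℝ) (β : G → ℝ) (s : ℝ) (g : G) : ℝ :=
  -(τ * (N g * Real.sinh s + β g * Real.cosh s)) * mv τ β s g

noncomputable def mv2 (τ : ℝ) (β : G → ℝ) (s : ℝ) (g : G) : ℝ :=
  (τ ^ 2 * (N g * Real.sinh s + β g * Real.cosh s) ^ 2 -
    τ * (N g * Real.cosh s + β g * Real.sinh s)) * mv τ β s g

lemma hasDerivAt_mv (τ : ℝ) (β : G → ℝ) (s : ℝ) (g : G) :
    HasDerivAt (fun s => mv τ β s g) (mv1 τ β s g) s := by
  have := (((((Real.hasDerivAt_cosh s).const_mul (N g)).add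
    ((Real.hasDerivAt_sinh s).const_mul (β g))).const_mul τ).neg).exp
  refine HasDerivAt.congr_deriv this ?_
  simp only [mv1, mv, Pi.neg_apply, Pi.add_apply]; ring

lemma hasDerivAt_mv1 (τ : ℝ) (β : G → ℝ) (s : ℝ) (g : G) :
    HasDerivAt (fun s => mv1 τ β s g) (mv2 τ β s g) s := by
  have := (((((Real.hasDerivAt_sinh s).const_mul (N g)).add
    ((Real.hasDerivAt_cosh s).const_mul (β g))).const_mul τ).neg).mul (hasDerivAt_mv τ β s g)
  refine HasDerivAt.congr_deriv this ?_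
  simp only [mv2, mv1, Pi.neg_apply, Pi.add_apply]; ring

lemma hyp_bounds {n b s : ℝ} (hb : |b| ≤ n) (hs : |s| ≤ 1) :
    n / 3 ≤ n * Real.cosh s + b * Real.sinh s ∧ |n * Real.cosh s + b * Real.sinh s| ≤ 3 * n ∧
      |n * Real.sinh s + b * Real.cosh s| ≤ 3 * n := by
  obtain ⟨h1, h2⟩ := abs_le.1 hb
  obtain ⟨h3, h4⟩ := abs_le.1 hs
  have e3 : Real.exp 1 ≤ 3 := Real.exp_one_lt_three.le
  have a1 : Real.exp s ≤ 3 := (Real.exp_le_exp.2 h4).trans e3
  have a2 : Real.exp (-s) ≤ 3 := (Real.exp_le_exp.2 (by linarith)).trans e3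
  have a3 : Real.exp s * Real.exp (-s) = 1 := by rw [← Real.exp_add]; simp
  have a4 := Real.exp_pos s
  have a5 := Real.exp_pos (-s)
  have a6 : 1 / 3 ≤ Real.exp s := by nlinarith
  have a7 : 1 / 3 ≤ Real.exp (-s) := by nlinarith
  rw [Real.cosh_eq, Real.sinh_eq]
  have p1 : 0 ≤ n + b := by linarith
  have p2 : 0 ≤ n - b := by linarith
  have q1 := mul_le_mul_of_nonneg_left a1 p1
  have q2 := mul_le_mul_of_nonneg_left a2 p2
  have q3 := mul_le_mul_of_nonneg_left a6 p1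
  have q4 := mul_le_mul_of_nonneg_left a7 p2
  refine ⟨by nlinarith, abs_le.2 ⟨by nlinarith, by nlinarith⟩, abs_le.2 ⟨by nlinarith, by nlinarith⟩⟩

lemma mv_bounds {τ : ℝ} (hτ : 0 < τ) {β : G → ℝ} (hβ : ∀ g, |β g| ≤ N g) {s : ℝ} (hs : |s| ≤ 1)
    (g : G) : |mv τ β s g| ≤ ker 0 (τ / 3) g ∧ |mv1 τ β s g| ≤ 3 * τ * ker 1 (τ / 3) g ∧
      |mv2 τ β s g| ≤ 9 * τ ^ 2 * ker 2 (τ / 3) g + 3 * τ * ker 1 (τ / 3) g := by
  obtain ⟨h1, h2, h3⟩ := hyp_bounds (hβ g) hs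
  have hN := N_pos g
  have a0 : 0 < mv τ β s g := Real.exp_pos _
  have a1 : mv τ β s g ≤ Real.exp (-(τ / 3 * N g)) := by
    rw [mv, Real.exp_le_exp]; nlinarith
  set E := Real.exp (-(τ / 3 * N g)) with hE
  set P := N g * Real.cosh s + β g * Real.sinh s
  set Q := N g * Real.sinh s + β g * Real.cosh s
  refine ⟨by rw [abs_of_pos a0, ker_zero]; exact a1, ?_, ?_⟩
  · rw [mv1, abs_mul, abs_neg, abs_mul, abs_of_pos a0, abs_of_pos hτ, ker, ← hE]
    calc τ * |Q| * mv τ β s g ≤ τ * (3 * N g) * E := by gcongr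
      _ = _ := by ring
  · rw [mv2, abs_mul, abs_of_pos a0, ker, ker, ← hE]
    have b1 : |τ ^ 2 * Q ^ 2 - τ * P| ≤ τ ^ 2 * (3 * N g) ^ 2 + τ * (3 * N g) := by
      refine (abs_sub _ _).trans ?_
      rw [abs_mul, abs_mul, abs_of_pos hτ, abs_of_nonneg (sq_nonneg τ), abs_pow]
      gcongr
    calc _ ≤ (τ ^ 2 * (3 * N g) ^ 2 + τ * (3 * N g)) * E := by gcongr
      _ = _ := by ring

lemma second_deriv {τ : ℝ} (hτ : 0 < τ) {β : G → ℝ} (hβc : Continuous β) (hβ : ∀ g, |β g| ≤ N g)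
    {c : G → ℂ} (hc : Measurable c) {b : ℝ} (hb : ∀ g, ‖c g‖ ≤ b) :
    Integrable (fun g => (mv2 τ β 0 g : ℂ) * c g) m ∧
    deriv (deriv fun s => ∫ g, (mv τ β s g : ℂ) * c g ∂m) 0 = ∫ g, (mv2 τ β 0 g : ℂ) * c g ∂m := by
  have hN := continuous_N
  have c0 : ∀ s, Continuous (mv τ β s) := fun s => by unfold mv; fun_prop
  have c1 : ∀ s, Continuous (mv1 τ β s) := fun s => by have := c0 s; unfold mv1; fun_prop
  have c2 : ∀ s, Continuous (mv2 τ β s) := fun s => by have := c0 s; unfold mv2; fun_prop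
  have me : ∀ {u : G → ℝ}, Continuous u → AEStronglyMeasurable (fun g => (u g : ℂ) * c g) m :=
    fun hu => ((Complex.continuous_ofReal.comp hu).measurable.mul hc).aestronglyMeasurable
  have nb : ∀ {x y : ℝ} (g : G), |x| ≤ y → ‖(x : ℂ) * c g‖ ≤ y * b := by
    intro x y g h
    rw [norm_mul, Complex.norm_real, Real.norm_eq_abs]
    exact mul_le_mul h (hb g) (norm_nonneg _) ((abs_nonneg x).trans h)
  have hτ3 : 0 < τ / 3 := by linarith
  have i0 := (integrable_ker m 0 hτ3).mul_const b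
  have i1 := ((integrable_ker m 1 hτ3).const_mul (3 * τ)).mul_const b
  have i2 := (((integrable_ker m 2 hτ3).const_mul (9 * τ ^ 2)).add
    ((integrable_ker m 1 hτ3).const_mul (3 * τ))).mul_const b
  have ab : ∀ {s : ℝ}, s ∈ Set.Ioo (-1 : ℝ) 1 → |s| ≤ 1 := fun hs => abs_le.2 ⟨hs.1.le, hs.2.le⟩
  have d1 : ∀ s ∈ Set.Ioo (-1 : ℝ) 1, Integrable (fun g => (mv1 τ β s g : ℂ) * c g) m ∧
      HasDerivAt (fun s => ∫ g, (mv τ β s g : ℂ) * c g ∂m)
        (∫ g, (mv1 τ β s g : ℂ) * c g ∂m) s := by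
    intro s hs
    refine hasDerivAt_integral_of_dominated_loc_of_deriv_le (isOpen_Ioo.mem_nhds hs)
      (F := fun s g => (mv τ β s g : ℂ) * c g) (F' := fun s g => (mv1 τ β s g : ℂ) * c g)
      (Eventually.of_forall fun s => me (c0 s))
      (i0.mono' (me (c0 s)) (Eventually.of_forall fun g => nb g (mv_bounds hτ hβ (ab hs) g).1))
      (me (c1 s)) (Eventually.of_forall fun g x hx => nb g (mv_bounds hτ hβ (ab hx) g).2.1) i1
      (Eventually.of_forall fun g x _ => (hasDerivAt_mv τ β x g).ofReal_comp.mul_const _)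
  have h0 : (0 : ℝ) ∈ Set.Ioo (-1 : ℝ) 1 := by norm_num
  have d2 := hasDerivAt_integral_of_dominated_loc_of_deriv_le (μ := m) (isOpen_Ioo.mem_nhds h0)
      (F := fun s g => (mv1 τ β s g : ℂ) * c g) (F' := fun s g => (mv2 τ β s g : ℂ) * c g)
      (Eventually.of_forall fun s => me (c1 s)) (d1 0 h0).1
      (me (c2 0)) (Eventually.of_forall fun g x hx => nb g (mv_bounds hτ hβ (ab hx) g).2.2) i2
      (Eventually.of_forall fun g x _ => (hasDerivAt_mv1 τ β x g).ofReal_comp.mul_const _)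
  refine ⟨d2.1, ?_⟩
  rw [← d2.2.deriv]
  refine Filter.EventuallyEq.deriv_eq ?_
  filter_upwards [isOpen_Ioo.mem_nhds h0] with s hs using (d1 s hs).2.deriv

lemma mv2_add {τ : ℝ} {β β' : G → ℝ} {g : G} (h : β g ^ 2 + β' g ^ 2 = N g ^ 2 - 4) :
    mv2 τ β 0 g + mv2 τ β' 0 g = Dker τ g := by
  simp only [mv2, mv, Dker, ker, Real.sinh_zero, Real.cosh_zero, mul_zero, mul_one, zero_add,
    add_zero]
  linear_combination (τ ^ 2 * Real.exp (-(τ * N g))) * h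

/-- Sum of the second derivatives along the two one parameter groups. -/
lemma second_deriv_add {τ : ℝ} (hτ : 0 < τ) {β β' : G → ℝ} (hβc : Continuous β)
    (hβc' : Continuous β') (h : ∀ g, β g ^ 2 + β' g ^ 2 = N g ^ 2 - 4)
    {c : G → ℂ} (hc : Measurable c) {b : ℝ} (hb : ∀ g, ‖c g‖ ≤ b) :
    deriv (deriv fun s => ∫ g, (mv τ β s g : ℂ) * c g ∂m) 0 +
      deriv (deriv fun s => ∫ g, (mv τ β' s g : ℂ) * c g ∂m) 0 =
      ∫ g, (Dker τ g : ℂ) * c g ∂m := by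
  obtain ⟨a1, a2⟩ := second_deriv (m := m) hτ hβc (fun g => abs_le_N (h g)) hc hb
  obtain ⟨a3, a4⟩ := second_deriv (m := m) hτ hβc'
    (fun g => abs_le_N ((add_comm _ _).trans (h g))) hc hb
  rw [a2, a4, ← integral_add a1 a3]
  refine integral_congr_ae (Eventually.of_forall fun g => ?_)
  simp only
  rw [← mv2_add (h g)]
  push_cast; ring

end second

lemma ker_mul_aH (τ s : ℝ) (g : G) : ker 0 τ (g * aH s) = mv τ βRH s g := by
  rw [ker_zero, mv, N_mul_aH]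
lemma ker_mul_aE (τ s : ℝ) (g : G) : ker 0 τ (g * aE s) = mv τ βRE s g := by
  rw [ker_zero, mv, N_mul_aE]
lemma ker_aH_mul (τ s : ℝ) (g : G) : ker 0 τ (aH s * g) = mv τ βLH s g := by
  rw [ker_zero, mv, N_aH_mul]
lemma ker_aE_mul (τ s : ℝ) (g : G) : ker 0 τ (aE s * g) = mv τ βLE s g := by
  rw [ker_zero, mv, N_aE_mul]

lemma integral_Dker {τ : ℝ} (hτ : 0 < τ) : ∫ g, Dker τ g ∂m = 0 := by
  have h := second_deriv_add (m := m) hτ continuous_βLH continuous_βLE βL_sq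
    (c := fun _ => 1) measurable_const (b := 1) (by simp)
  have e1 : (fun s => ∫ g, (mv τ βLH s g : ℂ) * 1 ∂m) = fun _ => ∫ g, (ker 0 τ g : ℂ) ∂m := by
    funext s
    simp only [mul_one, ← ker_aH_mul]
    exact integral_mul_left_eq_self (fun g => (ker 0 τ g : ℂ)) (aH s)
  have e2 : (fun s => ∫ g, (mv τ βLE s g : ℂ) * 1 ∂m) = fun _ => ∫ g, (ker 0 τ g : ℂ) ∂m := by
    funext s
    simp only [mul_one, ← ker_aE_mul]
    exact integral_mul_left_eq_self (fun g => (ker 0 τ g : ℂ)) (aE s)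
  rw [e1, e2] at h
  simp only [deriv_const', deriv_const, add_zero, mul_one, integral_complex_ofReal] at h
  exact_mod_cast h.symm

lemma V_pos {τ : ℝ} (hτ : 0 < τ) : 0 < V m τ := by
  rw [V, integral_pos_iff_support_of_nonneg (fun g => (ker_pos 0 τ g).le) (integrable_ker m 0 hτ)]
  have : Function.support (ker 0 τ) = Set.univ := by
    ext g; simp [(ker_pos 0 τ g).ne']
  rw [this]
  exact isOpen_univ.measure_pos m Set.univ_nonempty

lemma ker_le_of_one_le {τ a : ℝ} (hτ : 1 ≤ τ) {g : G} (ha : a ≤ N g) :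
    ker 0 τ g ≤ Real.exp (-((τ - 1) * a)) * ker 0 1 g := by
  rw [ker_zero, ker_zero, ← Real.exp_add, Real.exp_le_exp]
  nlinarith

theorem exists_vol : ∃ α, Vol m α := by
  set Λ : (G → ℝ) → ℝ := fun ψ => ∫ g, ψ g ∂m
  have hΛ : Fn m Λ := fn_integral
  have d1 : ∀ τ, 0 < τ → HasDerivAt (rr Λ 1) (rr1 Λ 1 τ) τ := fun τ hτ => hΛ.hasDerivAt_rr 1 hτ
  have d2 : ∀ τ, 0 < τ → HasDerivAt (rr1 Λ 1) (4 * rr1 Λ 1 τ) τ := fun τ hτ => by
    simpa using hΛ.hasDerivAt_rr1 1 0 hτ (by simpa using integral_Dker hτ)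
  have cst : ∀ f : ℝ → ℝ, (∀ τ, 0 < τ → HasDerivAt f 0 τ) → ∀ τ, 0 < τ → f τ = f 1 := by
    intro f hf τ hτ
    exact isOpen_Ioi.is_const_of_deriv_eq_zero (𝕜 := ℝ) isPreconnected_Ioi
      (fun x hx => (hf x hx).differentiableAt.differentiableWithinAt)
      (fun x hx => (hf x hx).deriv) hτ (show (1 : ℝ) ∈ Set.Ioi 0 by norm_num)
  have he : ∀ a τ : ℝ, HasDerivAt (fun t => Real.exp (a * t)) (Real.exp (a * τ) * a) τ := by
    intro a τ
    simpa using ((hasDerivAt_id τ).const_mul a).exp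
  obtain ⟨β, hβ⟩ : ∃ β, ∀ τ, 0 < τ → Real.exp (-4 * τ) * rr1 Λ 1 τ = β :=
    ⟨_, cst (fun t => Real.exp (-4 * t) * rr1 Λ 1 t) fun τ hτ => by
      refine HasDerivAt.congr_deriv ((he (-4) τ).mul (d2 τ hτ)) ?_
      ring⟩
  have hβ' : ∀ τ, 0 < τ → rr1 Λ 1 τ = β * Real.exp (4 * τ) := by
    intro τ hτ
    rw [← hβ τ hτ, mul_right_comm, ← Real.exp_add]; simp
  obtain ⟨γ, hγ⟩ : ∃ γ, ∀ τ, 0 < τ → rr Λ 1 τ - β / 4 * Real.exp (4 * τ) = γ :=
    ⟨_, cst (fun t => rr Λ 1 t - β / 4 * Real.exp (4 * t)) fun τ hτ => by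
      refine HasDerivAt.congr_deriv ((d1 τ hτ).sub ((he 4 τ).const_mul (β / 4))) ?_
      rw [hβ' τ hτ]; ring⟩
  have hrr : ∀ τ, rr Λ 1 τ = τ * Real.exp (2 * τ) * V m τ := fun τ => by simp [rr, Λ, V]
  have hb : ∀ τ, 1 ≤ τ → |rr Λ 1 τ| ≤ Real.exp 2 * V m 1 * τ := by
    intro τ hτ
    have h1 : V m τ ≤ Real.exp (-((τ - 1) * 2)) * V m 1 := by
      rw [V, V, ← integral_const_mul]
      exact integral_mono (integrable_ker m 0 (by linarith))
        ((integrable_ker m 0 one_pos).const_mul _) fun g => ker_le_of_one_le hτ (two_le_N g)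
    have h2 := V_pos (m := m) (show 0 < τ by linarith)
    rw [hrr, abs_of_pos (by positivity)]
    calc _ ≤ τ * Real.exp (2 * τ) * (Real.exp (-((τ - 1) * 2)) * V m 1) := by gcongr
      _ = (Real.exp (2 * τ) * Real.exp (-((τ - 1) * 2))) * V m 1 * τ := by ring
      _ = _ := by rw [← Real.exp_add]; congr 3; ring
  have hβ0 : β = 0 := by
    have t1 : Tendsto (fun τ : ℝ => τ ^ (1 : ℝ) * Real.exp (-4 * τ)) atTop (𝓝 0) :=
      tendsto_rpow_mul_exp_neg_mul_atTop_nhds_zero 1 4 (by norm_num)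
    have t2 : Tendsto (fun τ : ℝ => τ ^ (0 : ℝ) * Real.exp (-4 * τ)) atTop (𝓝 0) :=
      tendsto_rpow_mul_exp_neg_mul_atTop_nhds_zero 0 4 (by norm_num)
    have t3 := (t1.const_mul (Real.exp 2 * V m 1)).add (t2.const_mul |γ|)
    simp only [mul_zero, add_zero, Real.rpow_one, Real.rpow_zero, one_mul] at t3
    have t4 : |β / 4| ≤ 0 := by
      refine ge_of_tendsto t3 ?_
      filter_upwards [eventually_ge_atTop 1] with τ hτ
      have h1 := hγ τ (by linarith)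
      have h2 := hb τ hτ
      have h3 : β / 4 = (rr Λ 1 τ - γ) * Real.exp (-4 * τ) := by
        rw [← h1, sub_sub_cancel, mul_assoc, ← Real.exp_add]; simp
      rw [h3, abs_mul, abs_of_pos (Real.exp_pos _)]
      have h4 := abs_sub (rr Λ 1 τ) γ
      have := Real.exp_pos (-4 * τ)
      nlinarith
    have := abs_nonpos_iff.1 t4
    linarith
  simp only [hβ0, zero_div, zero_mul, sub_zero] at hγ
  refine ⟨γ, ?_, fun τ hτ => ?_⟩
  · rw [← hγ 1 one_pos, hrr]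
    have := V_pos (m := m) one_pos
    positivity
  · rw [← hγ τ hτ, hrr, Real.exp_neg]
    field_simp

end Pool.Agent.H800Z.Erg
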