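import Pool.Agent.H800Z.Erg.Ker

/-! The operators attached to integrable functions in a unitary representation. -/

set_option autoImplicit false
set_option linter.unusedSectionVars false

open MeasureTheory Filter Topology
open scoped InnerProductSpace ComplexConjugate

namespace Pool.Agent.H800Z.Erg

variable [MeasurableSpace G] [BorelSpace G] {m : Measure G} [m.IsHaarMeasure]
  {H : Type} [NormedAddCommGroup H] [InnerProductSpace ℂ H] [CompleteSpace H]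
  {U : G →* (H →L[ℂ] H)}

/-- A weakly measurable unitary representation. -/
structure Rep (U : G →* (H →L[ℂ] H)) : Prop where
  iso : ∀ g v, ‖U g v‖ = ‖v‖
  meas : ∀ v w, Measurable fun g => ⟪w, U g v⟫_ℂ

lemma U_mul (g h : G) (v : H) : U (g * h) v = U g (U h v) := by rw [map_mul]; rfl

lemma Rep.inner_map (hU : Rep U) (g : G) (v w : H) : ⟪U g v, U g w⟫_ℂ = ⟪v, w⟫_ℂ :=
  LinearIsometry.inner_map_map (⟨(U g : H →ₗ[ℂ] H), hU.iso g⟩ : H →ₗᵢ[ℂ] H) v w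

lemma Rep.adj (hU : Rep U) (g : G) (v w : H) : ⟪w, U g v⟫_ℂ = ⟪U g⁻¹ w, v⟫_ℂ := by
  rw [← hU.inner_map g (U g⁻¹ w) v, ← U_mul, mul_inv_cancel, map_one]; rfl

lemma Rep.norm_le (hU : Rep U) (g : G) (v w : H) : ‖⟪w, U g v⟫_ℂ‖ ≤ ‖w‖ * ‖v‖ := by
  rw [← hU.iso g v]; exact norm_inner_le_norm _ _

lemma Rep.integrable (hU : Rep U) {ψ : G → ℝ} (hψ : Integrable ψ m) (v w : H) :
    Integrable (fun g => (ψ g : ℂ) * ⟪w, U g v⟫_ℂ) m :=
  hψ.ofReal.mul_bdd (hU.meas v w).aestronglyMeasurable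
    (Eventually.of_forall fun g => hU.norm_le g v w)

lemma Rep.norm_integral_le (hU : Rep U) {ψ : G → ℝ} (hψ : Integrable ψ m) (v w : H) :
    ‖∫ g, (ψ g : ℂ) * ⟪w, U g v⟫_ℂ ∂m‖ ≤ (∫ g, |ψ g| ∂m) * (‖w‖ * ‖v‖) := by
  rw [← integral_mul_const]
  refine norm_integral_le_of_norm_le (hψ.abs.mul_const _) (Eventually.of_forall fun g => ?_)
  rw [norm_mul, Complex.norm_real, Real.norm_eq_abs]
  exact mul_le_mul_of_nonneg_left (hU.norm_le g v w) (abs_nonneg _)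

lemma Rep.exists_T (hU : Rep U) {ψ : G → ℝ} (hψ : Integrable ψ m) :
    ∃ T : H →L[ℂ] H, ∀ v w, ⟪w, T v⟫_ℂ = ∫ g, (ψ g : ℂ) * ⟪w, U g v⟫_ℂ ∂m := by
  let B₀ : H →ₗ⋆[ℂ] H →ₗ[ℂ] ℂ := LinearMap.mk₂'ₛₗ (starRingEnd ℂ) (RingHom.id ℂ)
    (fun v w => conj (∫ g, (ψ g : ℂ) * ⟪w, U g v⟫_ℂ ∂m))
    (fun v v' w => by
      rw [← map_add, ← integral_add (hU.integrable hψ v w) (hU.integrable hψ v' w)]
      simp only [map_add, inner_add_right, mul_add])
    (fun c v w => by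
      rw [smul_eq_mul, ← map_mul, ← integral_const_mul]
      simp only [map_smul, inner_smul_right, mul_left_comm])
    (fun v w w' => by
      rw [← map_add, ← integral_add (hU.integrable hψ v w) (hU.integrable hψ v w')]
      simp only [inner_add_left, mul_add])
    (fun c v w => by
      rw [smul_eq_mul, RingHom.id_apply]
      simp only [inner_smul_left, mul_left_comm _ (conj c)]
      rw [integral_const_mul, map_mul, Complex.conj_conj])
  let B₁ : H →L⋆[ℂ] H →L[ℂ] ℂ := B₀.mkContinuous₂ (∫ g, |ψ g| ∂m) (fun v w => by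
    change ‖conj (∫ g, (ψ g : ℂ) * ⟪w, U g v⟫_ℂ ∂m)‖ ≤ _
    rw [Complex.norm_conj, mul_assoc, mul_comm ‖v‖]
    exact hU.norm_integral_le hψ v w)
  refine ⟨InnerProductSpace.continuousLinearMapOfBilin B₁, fun v w => ?_⟩
  rw [← inner_conj_symm, InnerProductSpace.continuousLinearMapOfBilin_apply]
  change conj (conj _) = _
  rw [Complex.conj_conj]

open Classical in
/-- The operator attached to `ψ`. -/
noncomputable def TT (m : Measure G) (U : G →* (H →L[ℂ] H)) (ψ : G → ℝ) : H →L[ℂ] H :=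
  if h : ∃ T : H →L[ℂ] H, ∀ v w, ⟪w, T v⟫_ℂ = ∫ g, (ψ g : ℂ) * ⟪w, U g v⟫_ℂ ∂m then h.choose else 0

lemma Rep.TT_spec (hU : Rep U) {ψ : G → ℝ} (hψ : Integrable ψ m) (v w : H) :
    ⟪w, TT m U ψ v⟫_ℂ = ∫ g, (ψ g : ℂ) * ⟪w, U g v⟫_ℂ ∂m := by
  rw [TT, dif_pos (hU.exists_T hψ)]
  exact (hU.exists_T hψ).choose_spec v w

lemma op_ext {A B : H →L[ℂ] H} (h : ∀ v w, ⟪w, A v⟫_ℂ = ⟪w, B v⟫_ℂ) : A = B := by
  ext v; exact ext_inner_left ℂ fun w => h v w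

lemma vec_norm_le {y : H} {c : ℝ} (hc : 0 ≤ c) (h : ∀ w, ‖⟪w, y⟫_ℂ‖ ≤ c * ‖w‖) : ‖y‖ ≤ c := by
  have := h y
  rw [inner_self_eq_norm_sq_to_K] at this
  simp only [Complex.coe_algebraMap, norm_pow, Complex.norm_real, norm_norm] at this
  by_contra hcon
  push Not at hcon
  nlinarith

lemma op_norm_le {A : H →L[ℂ] H} {c : ℝ} (hc : 0 ≤ c)
    (h : ∀ v w, ‖⟪w, A v⟫_ℂ‖ ≤ c * (‖w‖ * ‖v‖)) : ‖A‖ ≤ c :=
  A.opNorm_le_bound hc fun v => vec_norm_le (by positivity) fun w => (h v w).trans_eq (by ring)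

lemma Rep.TT_norm_le (hU : Rep U) {ψ : G → ℝ} (hψ : Integrable ψ m) :
    ‖TT m U ψ‖ ≤ ∫ g, |ψ g| ∂m :=
  op_norm_le (integral_nonneg fun _ => abs_nonneg _) fun v w => by
    rw [hU.TT_spec hψ]; exact hU.norm_integral_le hψ v w

lemma Rep.TT_add (hU : Rep U) {ψ φ : G → ℝ} (hψ : Integrable ψ m) (hφ : Integrable φ m) :
    TT m U (fun g => ψ g + φ g) = TT m U ψ + TT m U φ := op_ext fun v w => by
  rw [add_apply, inner_add_right, hU.TT_spec hψ, hU.TT_spec hφ,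
    hU.TT_spec (ψ := fun g => ψ g + φ g) (hψ.add hφ),
    ← integral_add (hU.integrable hψ v w) (hU.integrable hφ v w)]
  simp only [Complex.ofReal_add, add_mul]

lemma Rep.TT_smul (hU : Rep U) (c : ℝ) {ψ : G → ℝ} (hψ : Integrable ψ m) :
    TT m U (fun g => c * ψ g) = c • TT m U ψ := op_ext fun v w => by
  rw [smul_apply, ← Complex.coe_smul, inner_smul_right, hU.TT_spec hψ,
    hU.TT_spec (hψ.const_mul c), ← integral_const_mul]
  simp only [Complex.ofReal_mul, mul_assoc]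

lemma Rep.fn (hU : Rep U) (φ : (H →L[ℂ] H) →L[ℝ] ℝ) (hφ : ∀ b, |φ b| ≤ ‖b‖) :
    Fn m (fun ψ => φ (TT m U ψ)) :=
  ⟨fun _ _ h1 h2 => by rw [hU.TT_add h1 h2, map_add],
    fun c _ h => by rw [hU.TT_smul c h, map_smul, smul_eq_mul],
    fun _ h => (hφ _).trans (hU.TT_norm_le h)⟩

/-- Integrable radial functions. -/
def Rad (m : Measure G) (ψ : G → ℝ) : Prop := Integrable ψ m ∧ ∃ f : ℝ → ℝ, ∀ g, ψ g = f (N g)

lemma rad_ker (k : ℕ) {τ : ℝ} (hτ : 0 < τ) : Rad m (ker k τ) :=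
  ⟨integrable_ker m k hτ, fun x => x ^ k * Real.exp (-(τ * x)), fun _ => rfl⟩

lemma rad_Dker {τ : ℝ} (hτ : 0 < τ) : Rad m (Dker τ) :=
  ⟨integrable_Dker hτ, fun x => τ ^ 2 * (x ^ 2 * Real.exp (-(τ * x))) +
    (-(2 * τ)) * (x ^ 1 * Real.exp (-(τ * x))) + (-(4 * τ ^ 2)) * (x ^ 0 * Real.exp (-(τ * x))),
    fun _ => rfl⟩

lemma Rad.congr {ψ : G → ℝ} (h : Rad m ψ) {g g' : G} (e : N g = N g') : ψ g = ψ g' := by
  obtain ⟨-, f, hf⟩ := h
  rw [hf, hf, e]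

lemma Rep.TT_adj (hU : Rep U) {ψ : G → ℝ} (hψ : Rad m ψ) (v w : H) :
    ⟪TT m U ψ w, v⟫_ℂ = ⟪w, TT m U ψ v⟫_ℂ := by
  have := isInvInvariant m
  rw [← inner_conj_symm, hU.TT_spec hψ.1, hU.TT_spec hψ.1, ← integral_conj,
    ← integral_inv_eq_self]
  refine integral_congr_ae (Eventually.of_forall fun g => ?_)
  simp only [map_mul, Complex.conj_ofReal, inner_conj_symm]
  rw [hψ.congr (N_inv g), hU.adj g v w]

lemma Rep.TT_sa (hU : Rep U) {ψ : G → ℝ} (hψ : Rad m ψ) : IsSelfAdjoint (TT m U ψ) :=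
  ContinuousLinearMap.isSelfAdjoint_iff_isSymmetric.2 fun w v => hU.TT_adj hψ v w

lemma Rep.U_TT (hU : Rep U) {ψ : G → ℝ} (hψ : Integrable ψ m) (b : G) (v w : H) :
    ⟪w, U b (TT m U ψ v)⟫_ℂ = ∫ g, (ψ (b⁻¹ * g) : ℂ) * ⟪w, U g v⟫_ℂ ∂m := by
  rw [hU.adj, hU.TT_spec hψ,
    ← integral_mul_left_eq_self (fun g => (ψ (b⁻¹ * g) : ℂ) * ⟪w, U g v⟫_ℂ) b]
  refine integral_congr_ae (Eventually.of_forall fun g => ?_)
  simp only [inv_mul_cancel_left]
  rw [← hU.adj, U_mul]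

lemma Rep.TT_U (hU : Rep U) {ψ : G → ℝ} (hψ : Integrable ψ m) (b : G) (v w : H) :
    ⟪w, TT m U ψ (U b v)⟫_ℂ = ∫ g, (ψ (g * b⁻¹) : ℂ) * ⟪w, U g v⟫_ℂ ∂m := by
  have := isMulRightInvariant m
  rw [hU.TT_spec hψ,
    ← integral_mul_right_eq_self (fun g => (ψ (g * b⁻¹) : ℂ) * ⟪w, U g v⟫_ℂ) b]
  refine integral_congr_ae (Eventually.of_forall fun g => ?_)
  simp only [mul_inv_cancel_right]
  rw [U_mul]

lemma conv_comm {ψ φ : G → ℝ} (hψ : Rad m ψ) (hφ : Rad m φ) (x : G) :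
    ∫ g, ψ g * φ (g⁻¹ * x) ∂m = ∫ g, φ g * ψ (g⁻¹ * x) ∂m := by
  obtain ⟨k₁, k₂, h1, h2, h⟩ := exists_inv_eq x
  rw [← integral_mul_left_eq_self (fun g => φ g * ψ (g⁻¹ * x)) x,
    ← integral_mul_left_eq_self (fun g => φ (x * g) * ψ ((x * g)⁻¹ * x)) k₂]
  refine integral_congr_ae (Eventually.of_forall fun g => ?_)
  simp only
  rw [mul_comm]
  congr 1
  · refine hφ.congr ?_
    rw [← N_inv, mul_inv_rev, inv_inv, h, mul_assoc, mul_assoc, N_rot_mul h1]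
  · refine hψ.congr ?_
    rw [mul_inv_rev x, inv_mul_cancel_right, N_inv, N_rot_mul h2]

lemma Rep.TT_TT (hU : Rep U) {ψ φ : G → ℝ} (hψ : Integrable ψ m) (hφ : Integrable φ m) (v w : H) :
    ⟪w, TT m U ψ (TT m U φ v)⟫_ℂ =
      ∫ x, ((∫ g, ψ g * φ (g⁻¹ * x) ∂m : ℝ) : ℂ) * ⟪w, U x v⟫_ℂ ∂m := by
  have h1 : Integrable (fun z : G × G => ψ z.1 * φ (z.1⁻¹ * z.2)) (m.prod m) :=
    (measurePreserving_prod_inv_mul m m).integrable_comp_of_integrable (hψ.mul_prod hφ)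
  have h2 : Integrable (fun z : G × G => ((ψ z.1 * φ (z.1⁻¹ * z.2) : ℝ) : ℂ) * ⟪w, U z.2 v⟫_ℂ)
      (m.prod m) := h1.ofReal.mul_bdd
        ((hU.meas v w).comp measurable_snd).aestronglyMeasurable
        (Eventually.of_forall fun z => hU.norm_le z.2 v w)
  rw [hU.TT_spec hψ]
  simp only [hU.U_TT hφ, ← integral_const_mul, ← integral_complex_ofReal, ← integral_mul_const]
  rw [← integral_integral_swap (f := fun g x => ((ψ g * φ (g⁻¹ * x) : ℝ) : ℂ) * ⟪w, U x v⟫_ℂ) h2]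
  simp only [Complex.ofReal_mul, mul_assoc]

lemma Rep.TT_comm (hU : Rep U) {ψ φ : G → ℝ} (hψ : Rad m ψ) (hφ : Rad m φ) :
    TT m U ψ * TT m U φ = TT m U φ * TT m U ψ := op_ext fun v w => by
  change ⟪w, TT m U ψ (TT m U φ v)⟫_ℂ = ⟪w, TT m U φ (TT m U ψ v)⟫_ℂ
  rw [hU.TT_TT hψ.1 hφ.1, hU.TT_TT hφ.1 hψ.1]
  simp only [conv_comm hψ hφ]

lemma Rep.move (hU : Rep U) {ψ φ : G → ℝ} (hψ : Rad m ψ) (hφ : Rad m φ) (b : G) (v w : H) :
    ∫ g, (ψ (g * b) : ℂ) * ⟪w, U g (TT m U φ v)⟫_ℂ ∂m =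
      ∫ g, (φ (b * g) : ℂ) * ⟪TT m U ψ w, U g v⟫_ℂ ∂m := by
  have h1 := hU.TT_U hψ.1 b⁻¹ (TT m U φ v) w
  have h2 := hU.U_TT hφ.1 b⁻¹ v (TT m U ψ w)
  rw [inv_inv] at h1 h2
  rw [← h1, ← h2, hU.TT_adj hψ]

lemma Rep.TT_D (hU : Rep U) {τ σ : ℝ} (hτ : 0 < τ) (hσ : 0 < σ) :
    TT m U (Dker τ) * TT m U (ker 0 σ) = TT m U (ker 0 τ) * TT m U (Dker σ) := op_ext fun v w => by
  change ⟪w, TT m U (Dker τ) (TT m U (ker 0 σ) v)⟫_ℂ = ⟪w, TT m U (ker 0 τ) (TT m U (Dker σ) v)⟫_ℂ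
  rw [← hU.TT_adj (rad_ker 0 hτ), hU.TT_spec (integrable_Dker hτ), hU.TT_spec (integrable_Dker hσ),
    ← second_deriv_add hτ continuous_βRH continuous_βRE βR_sq (hU.meas _ w)
      (fun g => hU.norm_le g _ _),
    ← second_deriv_add hσ continuous_βLH continuous_βLE βL_sq (hU.meas v _)
      (fun g => hU.norm_le g _ _)]
  simp only [← ker_mul_aH, ← ker_mul_aE, ← ker_aH_mul, ← ker_aE_mul,
    hU.move (rad_ker (m := m) 0 hτ) (rad_ker 0 hσ)]

lemma ker_anti {τ σ : ℝ} {g h : G} (e : τ * N g ≤ σ * N h) : ker 0 σ h ≤ ker 0 τ g := by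
  rw [ker_zero, ker_zero, Real.exp_le_exp]; linarith

/-- Approximate identity. -/
lemma Rep.approx (hU : Rep U) {τ σ s : ℝ} (hτ : 1 ≤ τ) (hσ : 0 < σ) (hs : 1 ≤ s) :
    ‖TT m U (ker 0 τ) * TT m U (ker 0 σ) - V m τ • TT m U (ker 0 σ)‖ ≤
      V m τ * (V m (σ / s) - V m (σ * s)) +
        2 * V m σ * (Real.exp (-((τ - 1) * (s + s⁻¹))) * V m 1) := by
  have hτ0 : 0 < τ := by linarith
  have hs0 : 0 < s := by linarith
  have iτ := integrable_ker m 0 hτ0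
  have iσ := integrable_ker m 0 hσ
  have i1 := integrable_ker m 0 one_pos
  have ia := integrable_ker m 0 (div_pos hσ hs0)
  have ib := integrable_ker m 0 (mul_pos hσ hs0)
  have p1 := V_pos (m := m) hτ0
  have p2 := V_pos (m := m) hσ
  have p3 := V_pos (m := m) one_pos
  have q1 : σ / s ≤ σ := div_le_self hσ.le hs
  have q2 : σ ≤ σ * s := le_mul_of_one_le_right hσ.le hs
  have hη : 0 ≤ V m (σ / s) - V m (σ * s) := sub_nonneg.2 (integral_mono ib ia fun g =>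
    ker_anti (mul_le_mul_of_nonneg_right (q1.trans q2) (N_pos g).le))
  refine op_norm_le (by positivity) fun v w => ?_
  set y := TT m U (ker 0 σ) v with hy
  have e : ⟪w, (TT m U (ker 0 τ) * TT m U (ker 0 σ) - V m τ • TT m U (ker 0 σ)) v⟫_ℂ =
      ∫ g, (ker 0 τ g : ℂ) * (⟪w, U g y⟫_ℂ - ⟪w, y⟫_ℂ) ∂m := by
    change ⟪w, TT m U (ker 0 τ) y - V m τ • y⟫_ℂ = _
    rw [inner_sub_right, ← Complex.coe_smul, inner_smul_right, hU.TT_spec iτ, V,
      ← integral_complex_ofReal, ← integral_mul_const]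
    simp only [mul_sub]
    exact (integral_sub (hU.integrable iτ y w) (iτ.ofReal.mul_const _)).symm
  have b1 : ∀ g, ‖⟪w, U g y⟫_ℂ - ⟪w, y⟫_ℂ‖ ≤ 2 * V m σ * (‖w‖ * ‖v‖) := by
    intro g
    have h1 : ‖y‖ ≤ V m σ * ‖v‖ := by
      refine (TT m U (ker 0 σ)).le_of_opNorm_le ((hU.TT_norm_le iσ).trans_eq ?_) v
      simp only [V, abs_of_pos (ker_pos 0 σ _)]
    have h2 := hU.norm_le g y w
    have h3 := norm_inner_le_norm (𝕜 := ℂ) w y
    have h4 := norm_sub_le ⟪w, U g y⟫_ℂ ⟪w, y⟫_ℂ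
    have h5 := mul_le_mul_of_nonneg_left h1 (norm_nonneg w)
    nlinarith
  have b2 : ∀ g, N g ≤ s + s⁻¹ →
      ‖⟪w, U g y⟫_ℂ - ⟪w, y⟫_ℂ‖ ≤ (V m (σ / s) - V m (σ * s)) * (‖w‖ * ‖v‖) := by
    intro g hg
    have i2 : Integrable (fun h => ker 0 σ (g⁻¹ * h)) m := iσ.comp_mul_left g⁻¹
    rw [hy, hU.U_TT iσ, hU.TT_spec iσ, ← integral_sub (hU.integrable i2 v w) (hU.integrable iσ v w)]
    have h1 := hU.norm_integral_le (i2.sub iσ) v w
    simp only [Pi.sub_apply, Complex.ofReal_sub, sub_mul] at h1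
    refine h1.trans (mul_le_mul_of_nonneg_right ?_ (by positivity))
    rw [V, V, ← integral_sub ia ib]
    refine integral_mono (i2.sub iσ).abs (ia.sub ib) fun h => ?_
    have a1 := N_mul_le_sharp hs (g := g⁻¹) (by rwa [N_inv]) h
    have a2 := N_mul_le_sharp hs hg (g⁻¹ * h)
    rw [mul_inv_cancel_left] at a2
    have a3 : ker 0 σ (g⁻¹ * h) ≤ ker 0 (σ / s) h := ker_anti (by
      rw [div_mul_eq_mul_div, div_le_iff₀ hs0]; nlinarith)
    have a4 : ker 0 (σ * s) h ≤ ker 0 σ (g⁻¹ * h) := ker_anti (by nlinarith)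
    have a5 : ker 0 σ h ≤ ker 0 (σ / s) h := ker_anti (mul_le_mul_of_nonneg_right q1 (N_pos h).le)
    have a6 : ker 0 (σ * s) h ≤ ker 0 σ h := ker_anti (mul_le_mul_of_nonneg_right q2 (N_pos h).le)
    exact abs_le.2 ⟨by linarith, by linarith⟩
  rw [e]
  refine (norm_integral_le_of_norm_le (g := fun g =>
    ker 0 τ g * ((V m (σ / s) - V m (σ * s)) * (‖w‖ * ‖v‖)) +
      ker 0 1 g * (Real.exp (-((τ - 1) * (s + s⁻¹))) * (2 * V m σ * (‖w‖ * ‖v‖))))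
    ((iτ.mul_const _).add (i1.mul_const _)) (Eventually.of_forall fun g => ?_)).trans_eq ?_
  · rw [norm_mul, Complex.norm_real, Real.norm_of_nonneg (ker_pos 0 τ g).le]
    have k1 := ker_pos 0 τ g
    have k2 := ker_pos 0 1 g
    rcases le_total (N g) (s + s⁻¹) with hg | hg
    · refine (mul_le_mul_of_nonneg_left (b2 g hg) k1.le).trans (le_add_of_nonneg_right ?_)
      positivity
    · refine (mul_le_mul (ker_le_of_one_le hτ hg) (b1 g) (norm_nonneg _) (by positivity)).trans ?_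
      refine le_add_of_nonneg_of_le (by positivity) (le_of_eq (by ring))
  · rw [integral_add (iτ.mul_const _) (i1.mul_const _), integral_mul_const, integral_mul_const]
    simp only [V]; ring

/-- The spectral gap for the kernel. -/
lemma Rep.gap (hU : Rep U) (h : ∃ Q : Set G, IsCompact Q ∧ ∃ ε : ℝ, 0 < ε ∧
    ∀ v, ∃ q ∈ Q, ε * ‖v‖ ≤ ‖U q v - v‖) : ∃ ρ < 1, ‖TT m U (ker 0 1)‖ ≤ ρ * V m 1 := by
  have := isMulRightInvariant m
  obtain ⟨Q, hQ, ε, hε, h⟩ := h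
  obtain ⟨M, hM⟩ := hQ.bddAbove_image continuous_N.continuousOn
  obtain ⟨q₀, hq₀, -⟩ := h 0
  have hM1 : 1 ≤ M := by linarith [two_le_N q₀, hM ⟨q₀, hq₀, rfl⟩]
  have i1 := integrable_ker m 0 one_pos
  have iM := integrable_ker m 0 (show 0 < M by linarith)
  have p1 := V_pos (m := m) one_pos
  have pM := V_pos (m := m) (show 0 < M by linarith)
  set κ := ε ^ 2 / 8 * V m M with hκ
  have hκ0 : 0 < κ := by positivity
  have key : ∀ v w : H, ‖v‖ = 1 → ‖w‖ = 1 → (⟪w, TT m U (ker 0 1) v⟫_ℂ).re ≤ V m 1 - κ := by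
    intro v w hv hw
    obtain ⟨q, hq, hq'⟩ := h v
    rw [hv, mul_one] at hq'
    set a : G → ℝ := fun g => (⟪w, U g v⟫_ℂ).re with ha
    have ia : Integrable (fun g => ker 0 1 g * a g) m := by
      simpa [ha] using (hU.integrable i1 v w).re
    have e1 : (⟪w, TT m U (ker 0 1) v⟫_ℂ).re = ∫ g, ker 0 1 g * a g ∂m := by
      rw [hU.TT_spec i1]
      have := (integral_re (hU.integrable i1 v w)).symm
      simpa [ha] using this
    have e2 : ∀ g, ‖w - U g v‖ ^ 2 = 2 - 2 * a g := by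
      intro g
      rw [@norm_sub_sq ℂ, hU.iso, hv, hw]
      simp only [ha, RCLike.re_to_complex]; ring
    have e3 : ∀ g, ε ^ 2 / 4 ≤ (1 - a g) + (1 - a (g * q)) := by
      intro g
      have h1 : ‖U q v - v‖ = ‖(w - U g v) - (w - U (g * q) v)‖ := by
        rw [← hU.iso g, map_sub, U_mul]; congr 1; abel
      have h2 := norm_sub_le (w - U g v) (w - U (g * q) v)
      have h3 := e2 g
      have h4 := e2 (g * q)
      nlinarith [sq_nonneg (‖w - U g v‖ - ‖w - U (g * q) v‖), norm_nonneg (w - U g v),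
        norm_nonneg (w - U (g * q) v)]
    have e4 : ∀ g, 0 ≤ 1 - a g := fun g => by nlinarith [e2 g, sq_nonneg ‖w - U g v‖]
    set u : G → ℝ := fun g => ker 0 1 g - ker 0 1 g * a g with hu
    have iu : Integrable u m := i1.sub ia
    have e5 : ∫ g, u (g * q) ∂m = ∫ g, u g ∂m := integral_mul_right_eq_self u q
    have e6 : ∫ g, ε ^ 2 / 4 * ker 0 M g ∂m ≤ ∫ g, (u g + u (g * q)) ∂m := by
      refine integral_mono (iM.const_mul _) (iu.add (iu.comp_mul_right q)) fun g => ?_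
      have a1 : ker 0 M g ≤ ker 0 1 g := ker_anti (mul_le_mul_of_nonneg_right hM1 (N_pos g).le)
      have a2 : ker 0 M g ≤ ker 0 1 (g * q) := ker_anti (by
        have := N_mul_le g q
        have := mul_le_mul_of_nonneg_left (hM ⟨q, hq, rfl⟩) (N_pos g).le
        linarith)
      have a3 := mul_le_mul_of_nonneg_right a1 (e4 g)
      have a4 := mul_le_mul_of_nonneg_right a2 (e4 (g * q))
      have a5 := mul_le_mul_of_nonneg_left (e3 g) (ker_pos 0 M g).le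
      simp only [hu]
      nlinarith
    rw [integral_add iu (iu.comp_mul_right q), e5, integral_const_mul, hu,
      integral_sub i1 ia] at e6
    rw [e1, hκ]
    simp only [V]
    linarith
  refine ⟨max 0 (V m 1 - κ) / V m 1, ?_, ?_⟩
  · rw [div_lt_one p1]; exact max_lt p1 (by linarith)
  · rw [div_mul_cancel₀ _ p1.ne']
    refine ContinuousLinearMap.opNorm_le_of_unit_norm (le_max_left _ _) fun v hv => ?_
    set y := TT m U (ker 0 1) v with hy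
    by_cases h0 : y = 0
    · rw [h0, norm_zero]; exact le_max_left _ _
    have hn : ‖y‖ ≠ 0 := norm_ne_zero_iff.2 h0
    have := key v ((‖y‖⁻¹ : ℂ) • y) hv (by rw [norm_smul]; simp [hn])
    rw [← hy, inner_smul_left, inner_self_eq_norm_sq_to_K] at this
    have e : (conj (‖y‖⁻¹ : ℂ) * ((‖y‖ : ℂ)) ^ 2) = (‖y‖ : ℂ) := by
      have : (‖y‖ : ℂ) ≠ 0 := by exact_mod_cast hn
      simp only [map_inv₀, Complex.conj_ofReal]
      field_simp
    simp only [Complex.coe_algebraMap] at this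
    rw [e, Complex.ofReal_re] at this
    exact this.trans (le_max_right _ _)

end Pool.Agent.H800Z.Erg
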