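import Pool.Agent.H800Z.Erg.Haar
import Pool.Agent.H800Z.Erg.St

/-! The intermediate statements of the `L¹` ergodic theorem under spectral gap. -/

set_option autoImplicit false

open MeasureTheory Filter Topology
open scoped ENNReal NNReal InnerProductSpace

namespace Pool.Agent.H800Z.Erg

/-- A jointly measurable measure preserving action. -/
structure Act [MeasurableSpace G] (X : Type) [MeasurableSpace X] [MulAction G X]
    (μ : Measure X) : Prop where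
  meas : Measurable fun p : G × X => p.1 • p.2
  pres : ∀ g : G, MeasurePreserving (fun x : X => g • x) μ μ

/-- Spectral gap, as in the frozen statement. -/
def Gap (X : Type) [MeasurableSpace X] [MulAction G X] (μ : Measure X) : Prop :=
  ∃ Q : Set G, IsCompact Q ∧ ∃ ε : ℝ, 0 < ε ∧
    ∀ f : X → ℝ, MemLp f 2 μ → ∫ y, f y ∂μ = 0 → eLpNorm f 2 μ = 1 →
      ∃ g ∈ Q, ENNReal.ofReal ε ≤ eLpNorm (fun y => f (g • y) - f y) 2 μ

/-- Power decay in `L²` of the Abel averages of bounded functions. -/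
def Dec [MeasurableSpace G] (m : Measure G) (X : Type) [MeasurableSpace X] [MulAction G X]
    (μ : Measure X) : Prop :=
  ∃ C c : ℝ, 0 < c ∧ ∀ ψ : X → ℝ, Measurable ψ → (∃ b, ∀ x, |ψ x| ≤ b) → ∀ τ : ℝ, 0 < τ → τ ≤ 1 →
    ∫ x, (∫ g, ker 0 τ g * ψ (g • x) ∂m - V m τ * ∫ y, ψ y ∂μ) ^ 2 ∂μ ≤
      (C * τ ^ c / τ) ^ 2 * ∫ x, ψ x ^ 2 ∂μ

/-- The mass of the kernels. -/
def Vol [MeasurableSpace G] (m : Measure G) (α : ℝ) : Prop :=
  0 < α ∧ ∀ τ : ℝ, 0 < τ → V m τ = α * Real.exp (-(2 * τ)) / τ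

/-- Decay for unitary representations with a spectral gap. -/
def S_decay : Prop := ∀ [MeasurableSpace G] [BorelSpace G] (m : Measure G) [m.IsHaarMeasure]
  (H : Type) [NormedAddCommGroup H] [InnerProductSpace ℂ H] [CompleteSpace H]
  (U : G →* (H →L[ℂ] H)), (∀ g v, ‖U g v‖ = ‖v‖) →
  (∀ v w, Measurable fun g => ⟪w, U g v⟫_ℂ) →
  (∃ Q : Set G, IsCompact Q ∧ ∃ ε : ℝ, 0 < ε ∧ ∀ v, ∃ q ∈ Q, ε * ‖v‖ ≤ ‖U q v - v‖) →
  ∃ C c : ℝ, 0 < c ∧ ∀ τ : ℝ, 0 < τ → τ ≤ 1 → ∀ v w,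
    ‖∫ g, (ker 0 τ g : ℂ) * ⟪w, U g v⟫_ℂ ∂m‖ ≤ C * τ ^ c / τ * (‖w‖ * ‖v‖)

/-- Decay for the Koopman representation. -/
def S_conc : Prop := ∀ [MeasurableSpace G] [BorelSpace G] (m : Measure G) [m.IsHaarMeasure]
  (X : Type) [MeasurableSpace X] [MulAction G X] (μ : Measure X) [IsProbabilityMeasure μ],
  Act X μ → Gap X μ → Dec m X μ

/-- A local Calderón–Zygmund decomposition. -/
def S_cz : Prop := ∀ [MeasurableSpace G] [BorelSpace G] (m : Measure G) [m.IsHaarMeasure]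
  (X : Type) [MeasurableSpace X] [MulAction G X] (μ : Measure X) [IsProbabilityMeasure μ],
  Act X μ → ∀ f : X → ℝ≥0∞, Measurable f → ∀ k : ℕ, ∃ g h : X → ℝ≥0∞,
    Measurable g ∧ Measurable h ∧ (∀ x, g x + h x = f x) ∧
    (∀ x, ∫⁻ γ in B 9, g (γ • x) ∂m ≤ 2) ∧
    μ {x | ∫⁻ γ in B 9, h (γ • x) ∂m ≠ 0} ≤
      m (B 729) * (2⁻¹ ^ k * ∫⁻ x, f x ∂μ + ∫⁻ x, g x ∂μ)

/-- The upper limit of the ball averages of an integrable function. -/
def Max [MeasurableSpace G] (m : Measure G) (X : Type) [MeasurableSpace X] [MulAction G X]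
    (μ : Measure X) : Prop :=
  ∃ K : ℝ≥0∞, K ≠ ∞ ∧ ∀ F : X → ℝ≥0∞, Measurable F → ∫⁻ x, F x ∂μ ≠ ∞ →
    ∀ᵐ x ∂μ, limsup (fun R : ℝ => (ENNReal.ofReal R)⁻¹ * ∫⁻ g in B R, F (g • x) ∂m) atTop ≤
      K * ∫⁻ x, F x ∂μ

def S_max : Prop := ∀ [MeasurableSpace G] [BorelSpace G] (m : Measure G) [m.IsHaarMeasure]
  (X : Type) [MeasurableSpace X] [MulAction G X] (μ : Measure X) [IsProbabilityMeasure μ]
  (α : ℝ), Act X μ → Dec m X μ → Vol m α → Max m X μ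

/-- Convergence for bounded functions. -/
def Bdd [MeasurableSpace G] (m : Measure G) (X : Type) [MeasurableSpace X] [MulAction G X]
    (μ : Measure X) (α : ℝ) : Prop :=
  ∀ ψ : X → ℝ, Measurable ψ → (∃ b, ∀ x, |ψ x| ≤ b) →
    ∀ᵐ x ∂μ, Tendsto (fun R : ℝ => R⁻¹ * ∫ g in B R, ψ (g • x) ∂m) atTop (𝓝 (α * ∫ y, ψ y ∂μ))

def S_bdd : Prop := ∀ [MeasurableSpace G] [BorelSpace G] (m : Measure G) [m.IsHaarMeasure]
  (X : Type) [MeasurableSpace X] [MulAction G X] (μ : Measure X) [IsProbabilityMeasure μ]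
  (α : ℝ), Act X μ → Dec m X μ → Vol m α → Bdd m X μ α

/-- From bounded functions to integrable functions. -/
def S_fin : Prop := ∀ [MeasurableSpace G] [BorelSpace G] (m : Measure G) [m.IsHaarMeasure]
  (X : Type) [MeasurableSpace X] [MulAction G X] (μ : Measure X) [IsProbabilityMeasure μ]
  (α : ℝ), 0 < α → Act X μ → Max m X μ → Bdd m X μ α → ∀ f : X → ℝ, Integrable f μ →
    ∀ᵐ x ∂μ, Tendsto (fun R : ℝ => (m (B R)).toReal⁻¹ * ∫ g in B R, f (g⁻¹ • x) ∂m) atTop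
      (𝓝 (∫ y, f y ∂μ))

end Pool.Agent.H800Z.Erg
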